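import Pool.Agent.H505R4.Lin5

/-!
Pairs `(n, n + 24 k)` with prescribed parity: the three pairs
`(c, a d)`, `(a Q, m P)`, `(c d P, m Q)` with `c = a d - 24 k`, `m = a d - 12 k`, `P = a l - 2`,
`Q = c l + 2`, `d + 1 = 6 k l`.
-/

set_option autoImplicit false

namespace Pool.Agent.H505R4

open Finset Pool.Agent.H505R2 Pool.Agent.H505R3

lemma id2 {a c m P Q d k l : ℕ} (hc : c + 24 * k = a * d) (hm : m = c + 12 * k) (hP : P + 2 = a * l)
    (hQ : Q = c * l + 2) (hd : d + 1 = 6 * k * l) : a * Q + 24 * k = m * P := by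
  have hc' : (c : ℤ) + 24 * k = a * d := by exact_mod_cast hc
  have hm' : (m : ℤ) = c + 12 * k := by exact_mod_cast hm
  have hP' : (P : ℤ) + 2 = a * l := by exact_mod_cast hP
  have hQ' : (Q : ℤ) = c * l + 2 := by exact_mod_cast hQ
  have hd' : (d : ℤ) + 1 = 6 * k * l := by exact_mod_cast hd
  have h1 : (P : ℤ) = a * l - 2 := by linarith
  have h : (a : ℤ) * Q + 24 * k = m * P := by
    rw [hm', hQ', h1]
    linear_combination 2 * hc' + 2 * a * hd'
  exact_mod_cast h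

lemma id3 {a c m P Q d k l : ℕ} (hc : c + 24 * k = a * d) (hm : m = c + 12 * k) (hP : P + 2 = a * l)
    (hQ : Q = c * l + 2) (hd : d + 1 = 6 * k * l) : c * d * P + 24 * k = m * Q := by
  have hc' : (c : ℤ) + 24 * k = a * d := by exact_mod_cast hc
  have hm' : (m : ℤ) = c + 12 * k := by exact_mod_cast hm
  have hP' : (P : ℤ) + 2 = a * l := by exact_mod_cast hP
  have hQ' : (Q : ℤ) = c * l + 2 := by exact_mod_cast hQ
  have hd' : (d : ℤ) + 1 = 6 * k * l := by exact_mod_cast hd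
  have h1 : (P : ℤ) = a * l - 2 := by linarith
  have h : (c : ℤ) * d * P + 24 * k = m * Q := by
    rw [hm', hQ', h1]
    linear_combination (-(c : ℤ) * l) * hc' - 2 * c * hd'
  exact_mod_cast h

/-- the parity of the three counts adds up to zero -/
lemma sum_even (g : ℕ → ℕ) (hg : ∀ a b : ℕ, a ≠ 0 → b ≠ 0 → g (a * b) = g a + g b)
    {a c m P Q d : ℕ} (ha : a ≠ 0) (hc : c ≠ 0) (hm : m ≠ 0) (hP : P ≠ 0) (hQ : Q ≠ 0)
    (hd : d ≠ 0) :
    Even (g c + g (a * d)) ∨ Even (g (a * Q) + g (m * P)) ∨ Even (g (c * d * P) + g (m * Q)) := by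
  rw [hg _ _ ha hd, hg _ _ ha hQ, hg _ _ hm hP, hg _ _ (mul_ne_zero hc hd) hP, hg _ _ hc hd,
    hg _ _ hm hQ]
  simp only [Nat.even_iff]
  omega

/-- leading coefficients of the five forms -/
def al (d l : ℕ) : Fin 5 → ℤ := ![6, 6 * d, 6 * d, 6 * l, 6 * d * l]

/-- constant terms of the five forms -/
def be (k d l : ℕ) : Fin 5 → ℤ :=
  ![1, d - 24 * k, d - 12 * k, l - 2, (d - 24 * k) * l + 2]

lemma not_dvd_of {p : ℕ} (h5 : 5 ≤ p) (hp : p.Prime) : ¬ (p : ℤ) ∣ 2 ∧ ¬ (p : ℤ) ∣ 6 ∧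
    ¬ (p : ℤ) ∣ 12 ∧ ¬ (p : ℤ) ∣ 24 := by
  have h2 : ¬ p ∣ 2 := fun h => by have := Nat.le_of_dvd (by norm_num) h; omega
  have h3 : ¬ p ∣ 3 := fun h => by have := Nat.le_of_dvd (by norm_num) h; omega
  have key : ∀ m n : ℕ, ¬ p ∣ m → ¬ p ∣ n → ¬ (p : ℤ) ∣ ((m * n : ℕ) : ℤ) := by
    intro m n hm hn h
    have h' : p ∣ m * n := by exact_mod_cast h
    rcases (Nat.Prime.dvd_mul hp).1 h' with h | h
    · exact hm h
    · exact hn h
  have k1 : ¬ p ∣ 1 := fun h => by have := Nat.le_of_dvd (by norm_num) h; omega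
  have k4 : ¬ p ∣ 4 := fun h => by
    have h' : p ∣ 2 * 2 := h
    rcases (Nat.Prime.dvd_mul hp).1 h' with h | h <;> exact h2 h
  have k8 : ¬ p ∣ 8 := fun h => by
    have h' : p ∣ 2 * 4 := h
    rcases (Nat.Prime.dvd_mul hp).1 h' with h | h
    · exact h2 h
    · exact k4 h
  have a1 := key 2 1 h2 k1
  have a2 := key 2 3 h2 h3
  have a3 := key 4 3 k4 h3
  have a4 := key 8 3 k8 h3
  norm_num at a1 a2 a3 a4
  exact ⟨a1, a2, a3, a4⟩

lemma forms_coprime {k j d l : ℕ} (hl : l = 15 * j) (hd : d + 1 = 90 * k * j) :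
    ∀ p : ℕ, p.Prime → 5 ≤ p → ∀ i, ¬ ((p : ℤ) ∣ al d l i ∧ (p : ℤ) ∣ be k d l i) := by
  intro p hp h5
  obtain ⟨n2, n6, n12, n24⟩ := not_dvd_of h5 hp
  have hpi := Nat.prime_iff_prime_int.1 hp
  have hd' : (d : ℤ) + 1 = 6 * k * l := by
    have : (d : ℤ) + 1 = 90 * k * j := by exact_mod_cast hd
    rw [this, hl]
    push_cast
    ring
  have n1 : ¬ (p : ℤ) ∣ 1 := by
    intro h
    exact n2 (h.trans (one_dvd _))
  -- `p` does not divide both `d` and `k`
  have hdk : (p : ℤ) ∣ d → ¬ (p : ℤ) ∣ k := by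
    intro h1 h2
    apply n1
    have h3 : (1 : ℤ) = (6 * l) * k - d := by linear_combination hd'
    rw [h3]
    exact dvd_sub (h2.mul_left _) h1
  have hl2 : (p : ℤ) ∣ l → ¬ (p : ℤ) ∣ (l : ℤ) - 2 := by
    intro h1 h2
    apply n2
    have h3 : (2 : ℤ) = l - (l - 2) := by ring
    rw [h3]
    exact dvd_sub h1 h2
  intro i
  fin_cases i
  · rintro ⟨h1, -⟩
    exact n6 h1
  · rintro ⟨h1, h2⟩
    have h1' : (p : ℤ) ∣ 6 * d := h1
    have h2' : (p : ℤ) ∣ d - 24 * k := h2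
    rcases hpi.dvd_or_dvd h1' with h | h
    · exact n6 h
    · have h3 : (p : ℤ) ∣ 24 * k := by
        have h4 : (24 : ℤ) * k = d - (d - 24 * k) := by ring
        rw [h4]
        exact dvd_sub h h2'
      rcases hpi.dvd_or_dvd h3 with h' | h'
      · exact n24 h'
      · exact hdk h h'
  · rintro ⟨h1, h2⟩
    have h1' : (p : ℤ) ∣ 6 * d := h1
    have h2' : (p : ℤ) ∣ d - 12 * k := h2
    rcases hpi.dvd_or_dvd h1' with h | h
    · exact n6 h
    · have h3 : (p : ℤ) ∣ 12 * k := by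
        have h4 : (12 : ℤ) * k = d - (d - 12 * k) := by ring
        rw [h4]
        exact dvd_sub h h2'
      rcases hpi.dvd_or_dvd h3 with h' | h'
      · exact n12 h'
      · exact hdk h h'
  · rintro ⟨h1, h2⟩
    have h1' : (p : ℤ) ∣ 6 * l := h1
    have h2' : (p : ℤ) ∣ l - 2 := h2
    rcases hpi.dvd_or_dvd h1' with h | h
    · exact n6 h
    · exact hl2 h h2'
  · rintro ⟨h1, h2⟩
    have h1' : (p : ℤ) ∣ 6 * d * l := h1
    have h2' : (p : ℤ) ∣ (d - 24 * k) * l + 2 := h2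
    rcases hpi.dvd_or_dvd h1' with h | h
    · rcases hpi.dvd_or_dvd h with h | h
      · exact n6 h
      · apply n2
        have h4 : (2 : ℤ) = -(((d - 24 * k) * l + 2)) + (l - 4) * d := by
          linear_combination 4 * hd'
        rw [h4]
        exact dvd_add (h2'.neg_right) (h.mul_left _)
    · apply n2
      have h4 : (2 : ℤ) = ((d - 24 * k) * l + 2) - (d - 24 * k) * l := by ring
      rw [h4]
      exact dvd_sub h2' (h.mul_left _)

/-- everything we need about one sifted `t` -/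
theorem props {I k j d l t : ℕ} (hk : 1 ≤ k) (hj : j % 2 = 1) (hl : l = 15 * j)
    (hd : d + 1 = 90 * k * j) (ht : ∀ p ∈ SP I, ¬ D5 (al d l) (be k d l) p t) :
    ∃ c m P Q : ℕ, c + 24 * k = (6 * t + 1) * d ∧ m = c + 12 * k ∧ P + 2 = (6 * t + 1) * l ∧
      Q = c * l + 2 ∧ Rough (2 ^ 2 ^ I) (6 * t + 1) ∧ Rough (2 ^ 2 ^ I) c ∧
      Rough (2 ^ 2 ^ I) m ∧ Rough (2 ^ 2 ^ I) P ∧ Rough (2 ^ 2 ^ I) Q ∧
      c ≠ 0 ∧ m ≠ 0 ∧ P ≠ 0 ∧ Q ≠ 0 ∧ 24 * k < d := by
  have hj1 : 1 ≤ j := by omega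
  have hkj : k ≤ k * j := Nat.le_mul_of_pos_right _ hj1
  have hdk : 24 * k < d := by
    have : 90 * k * j = 90 * (k * j) := by ring
    omega
  have had : d ≤ (6 * t + 1) * d := Nat.le_mul_of_pos_left _ (by omega)
  have hl15 : 15 ≤ l := by omega
  have hal : l ≤ (6 * t + 1) * l := Nat.le_mul_of_pos_left _ (by omega)
  have hD : ∀ i, ∀ p ∈ SP I, ¬ (p : ℤ) ∣ al d l i * t + be k d l i :=
    fun i p hp h => ht p hp ⟨i, h⟩
  obtain ⟨c, hc⟩ : ∃ c, c + 24 * k = (6 * t + 1) * d := ⟨(6 * t + 1) * d - 24 * k, by omega⟩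
  obtain ⟨P, hP⟩ : ∃ P, P + 2 = (6 * t + 1) * l := ⟨(6 * t + 1) * l - 2, by omega⟩
  have hc0 : c ≠ 0 := by omega
  have hP0 : P ≠ 0 := by omega
  have hc' : (c : ℤ) = (6 * t + 1) * d - 24 * k := by
    have : (c : ℤ) + 24 * k = (6 * t + 1) * d := by exact_mod_cast hc
    linarith
  have hP' : (P : ℤ) = (6 * t + 1) * l - 2 := by
    have : (P : ℤ) + 2 = (6 * t + 1) * l := by exact_mod_cast hP
    linarith
  -- residues
  have hd2 : d % 2 = 1 := by
    have : 90 * k * j = 2 * (45 * k * j) := by ring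
    omega
  have hd3 : d % 3 = 2 := by
    have : 90 * k * j = 3 * (30 * k * j) := by ring
    omega
  have had2 : ((6 * t + 1) * d) % 2 = 1 := by
    rw [Nat.mul_mod, hd2]; omega
  have had3 : ((6 * t + 1) * d) % 3 = 2 := by
    rw [Nat.mul_mod, hd3]; omega
  have hl2 : l % 2 = 1 := by omega
  have hl3 : l % 3 = 0 := by omega
  have hal2 : ((6 * t + 1) * l) % 2 = 1 := by
    rw [Nat.mul_mod, hl2]; omega
  have hal3 : ((6 * t + 1) * l) % 3 = 0 := by
    rw [Nat.mul_mod, hl3]; omega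
  have hcl2 : (c * l) % 2 = 1 := by
    rw [Nat.mul_mod, hl2]; omega
  have hcl3 : (c * l) % 3 = 0 := by
    rw [Nat.mul_mod, hl3]; omega
  refine ⟨c, c + 12 * k, P, c * l + 2, hc, rfl, hP, rfl, ?_, ?_, ?_, ?_, ?_, hc0, by omega, hP0,
    by omega, hdk⟩
  · apply rough_of (by omega) (by omega)
    intro p hp h
    apply hD 0 p hp
    have : al d l 0 * t + be k d l 0 = ((6 * t + 1 : ℕ) : ℤ) := by
      show (6 : ℤ) * t + 1 = _
      push_cast; ring
    rw [this]; exact h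
  · apply rough_of (by omega) (by omega)
    intro p hp h
    apply hD 1 p hp
    have : al d l 1 * t + be k d l 1 = (c : ℤ) := by
      show (6 : ℤ) * d * t + (d - 24 * k) = _
      rw [hc']; ring
    rw [this]; exact h
  · apply rough_of (by omega) (by omega)
    intro p hp h
    apply hD 2 p hp
    have : al d l 2 * t + be k d l 2 = ((c + 12 * k : ℕ) : ℤ) := by
      show (6 : ℤ) * d * t + (d - 12 * k) = _
      push_cast
      rw [hc']; ring
    rw [this]; exact h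
  · apply rough_of (by omega) (by omega)
    intro p hp h
    apply hD 3 p hp
    have : al d l 3 * t + be k d l 3 = (P : ℤ) := by
      show (6 : ℤ) * l * t + (l - 2) = _
      rw [hP']; ring
    rw [this]; exact h
  · apply rough_of (by omega) (by omega)
    intro p hp h
    apply hD 4 p hp
    have : al d l 4 * t + be k d l 4 = ((c * l + 2 : ℕ) : ℤ) := by
      show (6 : ℤ) * d * l * t + ((d - 24 * k) * l + 2) = _
      push_cast
      rw [hc']; ring
    rw [this]; exact h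

/-- finite version -/
theorem count_pairs (g : ℕ → ℕ) (hg : ∀ a b : ℕ, a ≠ 0 → b ≠ 0 → g (a * b) = g a + g b)
    (I : ℕ) (hI : 1 ≤ I) (k j d l K X : ℕ) (hk : 1 ≤ k) (hj : j % 2 = 1) (hl : l = 15 * j)
    (hd : d + 1 = 90 * k * j) (hrd : Rough (2 ^ 2 ^ I) d)
    (hX : (6 * K + 1) ^ 2 * d ^ 2 * l ≤ X) :
    (K : ℝ) * (Real.exp (-96) ^ I / 2) - (2 : ℝ) ^ (1292 * 2 ^ I) ≤
      3 * (({n : ℕ | 1 ≤ n ∧ n ≤ X ∧ Rough (2 ^ 2 ^ I) n ∧ Rough (2 ^ 2 ^ I) (n + 24 * k) ∧
        Even (g n + g (n + 24 * k))} : Set ℕ).ncard : ℝ) := by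
  classical
  have h5 : (5 : ℤ) ∣ al d l 3 := by
    show (5 : ℤ) ∣ 6 * (l : ℤ)
    rw [hl]
    push_cast
    exact ⟨18 * j, by ring⟩
  refine (sift5 (al d l) (be k d l) (forms_coprime hl hd) h5 I hI K).trans ?_
  obtain ⟨T, hT⟩ : ∃ T, T = (Ioc 0 K).filter
    (fun n => ∀ p ∈ SP I, ¬ D5 (al d l) (be k d l) p n) := ⟨_, rfl⟩
  rw [← hT]
  set G : Set ℕ := {n : ℕ | 1 ≤ n ∧ n ≤ X ∧ Rough (2 ^ 2 ^ I) n ∧ Rough (2 ^ 2 ^ I) (n + 24 * k) ∧
        Even (g n + g (n + 24 * k))} with hG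
  have hGf : G.Finite := (Set.finite_Iic X).subset fun _ hn => hn.2.1
  have hdpos : 0 < d := by
    have hj1 : 1 ≤ j := by omega
    have hkj : k ≤ k * j := Nat.le_mul_of_pos_right _ hj1
    have : 90 * k * j = 90 * (k * j) := by ring
    omega
  have hd24 : 24 * k < d := by
    have hj1 : 1 ≤ j := by omega
    have hkj : k ≤ k * j := Nat.le_mul_of_pos_right _ hj1
    have : 90 * k * j = 90 * (k * j) := by ring
    omega
  have hd6 : d + 1 = 6 * k * l := by rw [hd, hl]; ring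
  -- the three members
  obtain ⟨cf, hcf⟩ : ∃ cf : ℕ → ℕ, ∀ t, cf t + 24 * k = (6 * t + 1) * d :=
    ⟨fun t => (6 * t + 1) * d - 24 * k, fun t => by
      have : d ≤ (6 * t + 1) * d := Nat.le_mul_of_pos_left _ (by omega)
      show (6 * t + 1) * d - 24 * k + 24 * k = _
      omega⟩
  obtain ⟨Pf, hPf⟩ : ∃ Pf : ℕ → ℕ, ∀ t, Pf t + 2 = (6 * t + 1) * l :=
    ⟨fun t => (6 * t + 1) * l - 2, fun t => by
      have : l ≤ (6 * t + 1) * l := Nat.le_mul_of_pos_left _ (by omega)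
      show (6 * t + 1) * l - 2 + 2 = _
      omega⟩
  have hcmono : StrictMono cf := by
    intro t u htu
    have h1 := hcf t
    have h2 := hcf u
    have h3 : (6 * t + 1) * d < (6 * u + 1) * d := Nat.mul_lt_mul_of_pos_right (by omega) hdpos
    omega
  have hPmono : StrictMono Pf := by
    intro t u htu
    have h1 := hPf t
    have h2 := hPf u
    have h3 : (6 * t + 1) * l < (6 * u + 1) * l := Nat.mul_lt_mul_of_pos_right (by omega) (by omega)
    omega
  have hmem : ∀ t ∈ T, 0 < t ∧ t ≤ K ∧ Rough (2 ^ 2 ^ I) (6 * t + 1) ∧ Rough (2 ^ 2 ^ I) (cf t) ∧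
      Rough (2 ^ 2 ^ I) (cf t + 12 * k) ∧ Rough (2 ^ 2 ^ I) (Pf t) ∧
      Rough (2 ^ 2 ^ I) (cf t * l + 2) ∧ cf t ≠ 0 ∧ Pf t ≠ 0 := by
    intro t ht
    rw [hT, mem_filter, mem_Ioc] at ht
    obtain ⟨c, m, P, Q, e1, e2, e3, e4, r1, r2, r3, r4, r5, z1, z2, z3, z4, -⟩ :=
      props hk hj hl hd ht.2
    have f1 : c = cf t := by have := hcf t; omega
    have f2 : P = Pf t := by have := hPf t; omega
    subst f1 f2 e2 e4
    exact ⟨ht.1.1, ht.1.2, r1, r2, r3, r4, r5, z1, z3⟩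
  have hbound : ∀ t, 0 < t → t ≤ K → cf t ≤ X ∧ (6 * t + 1) * (cf t * l + 2) ≤ X ∧
      cf t * d * Pf t ≤ X := by
    intro t ht htK
    have h1 := hcf t
    have h2 := hPf t
    have ha : 6 * t + 1 ≤ 6 * K + 1 := by omega
    have hl1 : 1 ≤ l := by omega
    have hk24 : 2 ≤ 24 * k * l := by
      have : 24 * 1 * 1 ≤ 24 * k * l := Nat.mul_le_mul (Nat.mul_le_mul_left _ hk) hl1
      omega
    have e1 : (6 * t + 1) ^ 2 * d ^ 2 * l ≤ X :=
      le_trans (Nat.mul_le_mul_right _ (Nat.mul_le_mul_right _ (Nat.pow_le_pow_left ha 2))) hX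
    have e2 : (6 * t + 1) * d ≤ (6 * t + 1) ^ 2 * d ^ 2 * l := by
      calc (6 * t + 1) * d ≤ ((6 * t + 1) * d) * ((6 * t + 1) * d * l) :=
            Nat.le_mul_of_pos_right _ (by positivity)
        _ = (6 * t + 1) ^ 2 * d ^ 2 * l := by ring
    refine ⟨by omega, ?_, ?_⟩
    · have e3 : cf t * l + 2 ≤ (6 * t + 1) * d * l := by
        have : (cf t + 24 * k) * l = (6 * t + 1) * d * l := by rw [h1]
        have e : (cf t + 24 * k) * l = cf t * l + 24 * k * l := by ring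
        omega
      calc (6 * t + 1) * (cf t * l + 2) ≤ (6 * t + 1) * ((6 * t + 1) * d * l) :=
            Nat.mul_le_mul_left _ e3
        _ ≤ (6 * t + 1) * ((6 * t + 1) * d * l) * d := Nat.le_mul_of_pos_right _ hdpos
        _ = (6 * t + 1) ^ 2 * d ^ 2 * l := by ring
        _ ≤ X := e1
    · calc cf t * d * Pf t ≤ ((6 * t + 1) * d) * d * ((6 * t + 1) * l) :=
            Nat.mul_le_mul (Nat.mul_le_mul_right _ (by omega)) (by omega)
        _ = (6 * t + 1) ^ 2 * d ^ 2 * l := by ring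
        _ ≤ X := e1
  obtain ⟨T1, hT1⟩ : ∃ T1, T1 = T.filter (fun t => Even (g (cf t) + g (cf t + 24 * k))) := ⟨_, rfl⟩
  obtain ⟨T2, hT2⟩ : ∃ T2, T2 = T.filter (fun t => Even (g ((6 * t + 1) * (cf t * l + 2)) +
    g ((6 * t + 1) * (cf t * l + 2) + 24 * k))) := ⟨_, rfl⟩
  obtain ⟨T3, hT3⟩ : ∃ T3, T3 = T.filter (fun t => Even (g (cf t * d * Pf t) +
    g (cf t * d * Pf t + 24 * k))) := ⟨_, rfl⟩
  have hid : ∀ t, (6 * t + 1) * (cf t * l + 2) + 24 * k = (cf t + 12 * k) * Pf t ∧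
      cf t * d * Pf t + 24 * k = (cf t + 12 * k) * (cf t * l + 2) := fun t =>
    ⟨id2 (hcf t) rfl (hPf t) rfl hd6, id3 (hcf t) rfl (hPf t) rfl hd6⟩
  have hcover : T ⊆ T1 ∪ (T2 ∪ T3) := by
    intro t ht
    obtain ⟨h0, hK, r1, r2, r3, r4, r5, z1, z2⟩ := hmem t ht
    rw [mem_union, mem_union, hT1, hT2, hT3, mem_filter, mem_filter, mem_filter]
    rw [(hid t).1, (hid t).2, hcf t]
    rcases sum_even g hg (a := 6 * t + 1) (c := cf t) (m := cf t + 12 * k) (P := Pf t)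
      (Q := cf t * l + 2) (d := d) (by omega) z1 (by omega) z2 (by omega) (by omega)
      with h | h | h
    · exact Or.inl ⟨ht, h⟩
    · exact Or.inr (Or.inl ⟨ht, h⟩)
    · exact Or.inr (Or.inr ⟨ht, h⟩)
  have c1 : T1.card ≤ G.ncard := by
    rw [← Set.ncard_coe_finset]
    apply Set.ncard_le_ncard_of_injOn cf _ hcmono.injective.injOn hGf
    intro t ht
    rw [mem_coe, hT1, mem_filter] at ht
    obtain ⟨h0, hK, r1, r2, r3, r4, r5, z1, z2⟩ := hmem t ht.1
    refine ⟨by omega, (hbound t h0 hK).1, r2, ?_, ht.2⟩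
    rw [hcf t]
    exact r1.mul hrd
  have c2 : T2.card ≤ G.ncard := by
    rw [← Set.ncard_coe_finset]
    apply Set.ncard_le_ncard_of_injOn (fun t => (6 * t + 1) * (cf t * l + 2)) _ _ hGf
    · intro t ht
      rw [mem_coe, hT2, mem_filter] at ht
      obtain ⟨h0, hK, r1, r2, r3, r4, r5, z1, z2⟩ := hmem t ht.1
      refine ⟨?_, (hbound t h0 hK).2.1, r1.mul r5, ?_, ht.2⟩
      · show 1 ≤ (6 * t + 1) * (cf t * l + 2)
        exact Nat.one_le_iff_ne_zero.2 (mul_ne_zero (by omega) (by omega))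
      · show Rough _ ((6 * t + 1) * (cf t * l + 2) + 24 * k)
        rw [(hid t).1]
        exact r3.mul r4
    · have hmono : StrictMono (fun t : ℕ => (6 * t + 1) * (cf t * l + 2)) := by
        intro t u htu
        show (6 * t + 1) * (cf t * l + 2) < (6 * u + 1) * (cf u * l + 2)
        have h1 : cf t * l ≤ cf u * l := Nat.mul_le_mul_right _ (hcmono.monotone htu.le)
        exact Nat.mul_lt_mul_of_lt_of_le (by omega) (by omega) (by omega)
      exact hmono.injective.injOn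
  have c3 : T3.card ≤ G.ncard := by
    rw [← Set.ncard_coe_finset]
    apply Set.ncard_le_ncard_of_injOn (fun t => cf t * d * Pf t) _ _ hGf
    · intro t ht
      rw [mem_coe, hT3, mem_filter] at ht
      obtain ⟨h0, hK, r1, r2, r3, r4, r5, z1, z2⟩ := hmem t ht.1
      refine ⟨?_, (hbound t h0 hK).2.2, (r2.mul hrd).mul r4, ?_, ht.2⟩
      · show 1 ≤ cf t * d * Pf t
        exact Nat.one_le_iff_ne_zero.2 (mul_ne_zero (mul_ne_zero z1 (by omega)) z2)
      · show Rough _ (cf t * d * Pf t + 24 * k)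
        rw [(hid t).2]
        exact r3.mul r5
    · intro t ht u hu htu
      rw [mem_coe, hT3, mem_filter] at ht hu
      obtain ⟨-, -, -, -, -, -, -, y1, y2⟩ := hmem t ht.1
      obtain ⟨-, -, -, -, -, -, -, z1, z2⟩ := hmem u hu.1
      have key : ∀ t u, t < u → cf t ≠ 0 → Pf t ≠ 0 → cf t * d * Pf t < cf u * d * Pf u := by
        intro t u h hz hz'
        exact Nat.mul_lt_mul_of_lt_of_le
          (Nat.mul_lt_mul_of_pos_right (hcmono h) hdpos) (hPmono.monotone h.le)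
          (Nat.pos_of_ne_zero (by have := hPmono h; omega))
      have htu' : cf t * d * Pf t = cf u * d * Pf u := htu
      rcases lt_trichotomy t u with h | h | h
      · have := key t u h y1 y2
        omega
      · exact h
      · have := key u t h z1 z2
        omega
  have h1 := (card_le_card hcover).trans ((card_union_le _ _).trans
    (Nat.add_le_add_left (card_union_le _ _) _))
  have h2 : T.card ≤ 3 * G.ncard := by omega
  exact_mod_cast h2

end Pool.Agent.H505R4
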