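import Pool.Agent.H505R4.Diff

set_option autoImplicit false

namespace Pool.Agent.H505R4

open Finset Filter Pool.Agent.H505R2 Pool.Agent.H505R3

/-- the sieve bound for five forms is large as soon as the range exceeds `2 ^ (1300 * 2 ^ I)` -/
lemma low_bound {I : ℕ} (hI : 10 ≤ I) {K : ℝ} (hK : (2 : ℝ) ^ (1300 * 2 ^ I) ≤ K) :
    K / (4 * 2 ^ (139 * I)) ≤ K * (Real.exp (-96) ^ I / 2) - (2 : ℝ) ^ (1292 * 2 ^ I) := by
  have hE1 := exp96I I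
  have hP := pow_big2 I hI
  obtain ⟨W, hW⟩ : ∃ W : ℝ, W = (2 : ℝ) ^ (139 * I) := ⟨_, rfl⟩
  have hWpos : 0 < W := by rw [hW]; positivity
  rw [← hW] at hE1 ⊢
  have hK0 : (0 : ℝ) ≤ K := le_trans (by positivity) hK
  have h1 : (2 : ℝ) ^ (1292 * 2 ^ I) * (4 * W) ≤ K := by
    refine le_trans ?_ hK
    rw [hW, show (4 : ℝ) = 2 ^ 2 by norm_num, ← pow_add, ← pow_add]
    apply pow_le_pow_right₀ (by norm_num)
    omega
  have h2 : (2 : ℝ) ^ (1292 * 2 ^ I) ≤ K / (4 * W) := by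
    rw [le_div_iff₀ (by positivity)]
    exact h1
  have h3 : (K : ℝ) / (2 * W) ≤ (K : ℝ) * (Real.exp (-96) ^ I / 2) := by
    rw [div_le_iff₀ (by positivity)]
    have : (K : ℝ) * (Real.exp (-96) ^ I / 2) * (2 * W) = K * (Real.exp (-96) ^ I * W) := by ring
    rw [this]
    nlinarith
  have h4 : (K : ℝ) / (2 * W) = K / (4 * W) + K / (4 * W) := by field_simp; ring
  linarith

/-- a rough number in a residue class `-1` modulo `90 k` -/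
lemma exists_d {I : ℕ} (hI : 10 ≤ I) (k : ℕ) (hk : 1 ≤ k) : ∃ j d : ℕ, j % 2 = 1 ∧
    d + 1 = 90 * k * j ∧ Rough (2 ^ 2 ^ I) d ∧ (j : ℝ) ≤ 3 * 2 ^ (1300 * 2 ^ I) := by
  obtain ⟨K, hK⟩ : ∃ K : ℕ, K = 2 ^ (1300 * 2 ^ I) := ⟨_, rfl⟩
  have hKr : (K : ℝ) = 2 ^ (1300 * 2 ^ I) := by rw [hK]; push_cast; rfl
  have hK1 : 1 ≤ K := by rw [hK]; exact Nat.one_le_two_pow
  have h1 := sift5 (fun _ => 180 * (k : ℤ)) (fun _ => 90 * (k : ℤ) - 1) (by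
    intro p hp h5 _ h
    apply (not_dvd_of h5 hp).1
    have : (2 : ℤ) = 180 * k - 2 * (90 * k - 1) := by ring
    rw [this]
    exact dvd_sub h.1 (h.2.mul_left _)) ⟨36 * k, by ring⟩ I (by omega) K
  have h2 := low_bound hI (K := (K : ℝ)) (by rw [hKr])
  have h3 : (0 : ℝ) < (K : ℝ) / (4 * 2 ^ (139 * I)) := by positivity
  have h4 := lt_of_lt_of_le h3 (h2.trans h1)
  have h5 : 0 < ((Ioc 0 K).filter (fun n => ∀ p ∈ SP I,
      ¬ D5 (fun _ => 180 * (k : ℤ)) (fun _ => 90 * (k : ℤ) - 1) p n)).card := by exact_mod_cast h4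
  obtain ⟨t, ht⟩ := card_pos.1 h5
  rw [mem_filter, mem_Ioc] at ht
  obtain ⟨⟨t0, tK⟩, ht⟩ := ht
  have hkj : k ≤ k * (2 * t + 1) := Nat.le_mul_of_pos_right _ (by omega)
  have e90 : 90 * k * (2 * t + 1) = 90 * (k * (2 * t + 1)) := by ring
  obtain ⟨d, hd⟩ : ∃ d, d + 1 = 90 * k * (2 * t + 1) := ⟨90 * k * (2 * t + 1) - 1, by omega⟩
  refine ⟨2 * t + 1, d, by omega, hd, ?_, ?_⟩
  · apply rough_of (by omega) (by omega)
    intro p hp h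
    apply ht p hp
    refine ⟨0, ?_⟩
    have hd' : (d : ℤ) + 1 = 90 * k * (2 * t + 1) := by exact_mod_cast hd
    have : 180 * (k : ℤ) * t + (90 * (k : ℤ) - 1) = d := by linear_combination -hd'
    show (p : ℤ) ∣ 180 * (k : ℤ) * t + (90 * (k : ℤ) - 1)
    rw [this]
    exact h
  · rw [← hKr]
    have : 2 * t + 1 ≤ 3 * K := by omega
    exact_mod_cast this

theorem main_pairs (ε : ℝ) (hε : 0 < ε) : ∃ η : ℝ, 0 < η ∧ ∃ X₀ : ℕ, ∀ g : ℕ → ℕ,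
    (∀ a b : ℕ, a ≠ 0 → b ≠ 0 → g (a * b) = g a + g b) → ∀ k X : ℕ, X₀ ≤ X → 1 ≤ k →
      (k : ℝ) ≤ (X : ℝ) ^ η → (X : ℝ) ^ (1 / 2 - ε) ≤
        (({n : ℕ | 1 ≤ n ∧ n ≤ X ∧
          (∀ p : ℕ, p.Prime → p ∣ n * (n + 24 * k) → (X : ℝ) ^ η < p) ∧
          Even (g (n * (n + 24 * k)))} : Set ℕ).ncard : ℝ) := by
  obtain ⟨δ, hδ0, hδ1, hδε⟩ : ∃ δ : ℝ, 0 < δ ∧ δ ≤ 1 / 8 ∧ 4 * δ ≤ ε := by
    refine ⟨min ε (1 / 2) / 4, by positivity, ?_, ?_⟩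
    · have := min_le_right ε (1 / 2)
      linarith
    · have := min_le_left ε (1 / 2)
      linarith
  obtain ⟨B, hB⟩ : ∃ B : ℝ, B = (2 : ℝ) ^ (1300 * 2 ^ 10) := ⟨_, rfl⟩
  have hev : ∀ᶠ X : ℕ in atTop, B ≤ (X : ℝ) ^ δ ∧ (15000 * 15001 : ℝ) ≤ (X : ℝ) ^ ((1 - 5 * δ) / 2) ∧
      (15001 : ℝ) ≤ (X : ℝ) ^ ((1 - 7 * δ) / 2) ∧ (180012 : ℝ) ≤ (X : ℝ) ^ (δ / 2) ∧ 2 ≤ X := by
    have e1 := ev_ge hδ0 B
    have e2 := ev_ge (show (0 : ℝ) < (1 - 5 * δ) / 2 by linarith) (15000 * 15001 : ℝ)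
    have e3 := ev_ge (show (0 : ℝ) < (1 - 7 * δ) / 2 by linarith) (15001 : ℝ)
    have e4 := ev_ge (show (0 : ℝ) < δ / 2 by linarith) (180012 : ℝ)
    filter_upwards [e1, e2, e3, e4, eventually_ge_atTop 2] with X h1 h2 h3 h4 h5
    exact ⟨h1, h2, h3, h4, h5⟩
  rw [eventually_atTop] at hev
  obtain ⟨X₀, hX₀⟩ := hev
  refine ⟨δ / 2600, by positivity, X₀, fun g hg k X hX hk hkX => ?_⟩
  obtain ⟨a1, a2, a3, a4, a5⟩ := hX₀ X hX
  have hX0 : (0 : ℝ) < X := by exact_mod_cast (by omega : 0 < X)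
  have hX1 : (1 : ℝ) < X := by exact_mod_cast (by omega : 1 < X)
  obtain ⟨x, hx⟩ : ∃ x : ℝ, x = (X : ℝ) ^ δ := ⟨_, rfl⟩
  obtain ⟨Y, hY⟩ : ∃ Y : ℝ, Y = (X : ℝ) ^ ((1 - 5 * δ) / 2) := ⟨_, rfl⟩
  have hx0 : 0 < x := by rw [hx]; positivity
  have hY0 : 0 < Y := by rw [hY]; positivity
  have hYx : Y ^ 2 * x ^ 5 = X := by
    rw [hY, hx, ← Real.rpow_natCast, ← Real.rpow_natCast, ← Real.rpow_mul hX0.le,
      ← Real.rpow_mul hX0.le, ← Real.rpow_add hX0]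
    push_cast
    rw [show (1 - 5 * δ) / 2 * 2 + δ * 5 = 1 by ring, Real.rpow_one]
  have hxY : x * 15001 ≤ Y := by
    have : Y = x * (X : ℝ) ^ ((1 - 7 * δ) / 2) := by
      rw [hY, hx, ← Real.rpow_add hX0]
      congr 1
      ring
    rw [this]
    exact mul_le_mul_of_nonneg_left a3 hx0.le
  rw [← hx] at a1
  rw [← hY] at a2
  obtain ⟨I, hI0, hI1, hI2⟩ := exists_levelG 1300 (by norm_num) (x := x) 10 (by
    rw [← hB]; exact a1)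
  obtain ⟨j, d, hj, hd, hrd, hjle⟩ := exists_d hI0 k hk
  obtain ⟨K, hK⟩ : ∃ K : ℕ, K = ⌊Y / 15000⌋₊ := ⟨_, rfl⟩
  have hK1 : (K : ℝ) ≤ Y / 15000 := by rw [hK]; exact Nat.floor_le (by positivity)
  have hK2 : Y / 15000 < K + 1 := by rw [hK]; exact Nat.lt_floor_add_one _
  have hK3 : Y / 15001 ≤ K := by
    have : Y / 15000 - 1 ≥ Y / 15001 := by linarith
    linarith
  have hxK : x ≤ K := by
    refine le_trans ?_ hK3
    rw [le_div_iff₀ (by norm_num)]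
    exact hxY
  have hk1 : (1 : ℝ) ≤ K := by
    have : (1 : ℝ) ≤ x := le_trans (one_le_pow₀ (by norm_num)) hI1
    linarith
  have hjx : (j : ℝ) ≤ 3 * x := by linarith
  have hkx : (k : ℝ) ≤ x := by
    refine hkX.trans ?_
    rw [hx]
    exact Real.rpow_le_rpow_of_exponent_le hX1.le (by linarith)
  have hdx : (d : ℝ) ≤ 270 * x ^ 2 := by
    have h1 : (d : ℝ) + 1 = 90 * k * j := by exact_mod_cast hd
    have h2 : (k : ℝ) * j ≤ x * (3 * x) := mul_le_mul hkx hjx (Nat.cast_nonneg _) hx0.le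
    nlinarith
  have hlx : ((15 * j : ℕ) : ℝ) ≤ 45 * x := by
    push_cast
    linarith
  have hKX : (6 * K + 1) ^ 2 * d ^ 2 * (15 * j) ≤ X := by
    have h1 : ((6 * K + 1 : ℕ) : ℝ) ≤ 7 * (Y / 15000) := by
      push_cast
      linarith
    have h2 : ((6 * K + 1 : ℕ) : ℝ) ^ 2 ≤ (7 * (Y / 15000)) ^ 2 :=
      pow_le_pow_left₀ (Nat.cast_nonneg _) h1 2
    have h3 : (d : ℝ) ^ 2 ≤ (270 * x ^ 2) ^ 2 := pow_le_pow_left₀ (Nat.cast_nonneg _) hdx 2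
    have h4 : ((6 * K + 1 : ℕ) : ℝ) ^ 2 * (d : ℝ) ^ 2 * ((15 * j : ℕ) : ℝ) ≤
        (7 * (Y / 15000)) ^ 2 * (270 * x ^ 2) ^ 2 * (45 * x) :=
      mul_le_mul (mul_le_mul h2 h3 (by positivity) (by positivity)) hlx (Nat.cast_nonneg _)
        (by positivity)
    have h5 : (7 * (Y / 15000)) ^ 2 * (270 * x ^ 2) ^ 2 * (45 * x) =
        (160744500 / 225000000) * (Y ^ 2 * x ^ 5) := by ring
    rw [h5, hYx] at h4
    have h6 : (160744500 / 225000000 : ℝ) * X ≤ X := by nlinarith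
    exact_mod_cast h4.trans h6
  have hcount := count_pairs g hg I (by omega) k j d (15 * j) K X hk hj rfl hd hrd hKX
  have hlow := low_bound hI0 (K := (K : ℝ)) (hI1.trans hxK)
  -- sifting limit
  have hz : (X : ℝ) ^ (δ / 2600) < (2 : ℝ) ^ 2 ^ I := by
    have h1 : ((X : ℝ) ^ (δ / 2600)) ^ (2600 : ℕ) < ((2 : ℝ) ^ 2 ^ I) ^ (2600 : ℕ) := by
      rw [← Real.rpow_natCast, ← Real.rpow_mul hX0.le, ← pow_mul]
      have e1 : δ / 2600 * ((2600 : ℕ) : ℝ) = δ := by push_cast; ring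
      rw [e1, mul_comm (2 ^ I) 2600, ← hx]
      exact hI2
    exact lt_of_pow_lt_pow_left₀ 2600 (by positivity) h1
  have hP := pow_big2 I hI0
  obtain ⟨W, hW⟩ : ∃ W : ℝ, W = (2 : ℝ) ^ (139 * I) := ⟨_, rfl⟩
  have hWpos : 0 < W := by rw [hW]; positivity
  rw [← hW] at hlow
  have hWx : W ≤ x := by
    refine le_trans ?_ hI1
    rw [hW]
    apply pow_le_pow_right₀ (by norm_num)
    omega
  have hfin : (X : ℝ) ^ (1 / 2 - ε) ≤ (K : ℝ) / (4 * W) / 3 := by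
    have h1 : (X : ℝ) ^ (1 / 2 - ε) ≤ (X : ℝ) ^ (1 / 2 - 4 * δ) :=
      Real.rpow_le_rpow_of_exponent_le hX1.le (by linarith)
    refine h1.trans ?_
    rw [div_div, le_div_iff₀ (by positivity)]
    have h2 : (X : ℝ) ^ (1 / 2 - 4 * δ) * (180012 * x) ≤ Y := by
      have e : Y = (X : ℝ) ^ (1 / 2 - 4 * δ) * (X : ℝ) ^ (δ / 2) * x := by
        rw [hY, hx, ← Real.rpow_add hX0, ← Real.rpow_add hX0]
        congr 1
        ring
      rw [e]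
      have h3 : (X : ℝ) ^ (1 / 2 - 4 * δ) * 180012 ≤ (X : ℝ) ^ (1 / 2 - 4 * δ) * (X : ℝ) ^ (δ / 2) :=
        mul_le_mul_of_nonneg_left a4 (by positivity)
      nlinarith
    have h5 : (X : ℝ) ^ (1 / 2 - 4 * δ) * (12 * x) ≤ Y / 15001 := by
      rw [le_div_iff₀ (by norm_num)]
      linarith
    have h6 : (X : ℝ) ^ (1 / 2 - 4 * δ) * (4 * W * 3) ≤ (X : ℝ) ^ (1 / 2 - 4 * δ) * (12 * x) :=
      mul_le_mul_of_nonneg_left (by linarith) (by positivity)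
    linarith
  refine hfin.trans ?_
  rw [div_le_iff₀ (by norm_num)]
  refine (hlow.trans hcount).trans ?_
  rw [mul_comm]
  apply mul_le_mul_of_nonneg_right _ (by norm_num)
  have hsub : ({n : ℕ | 1 ≤ n ∧ n ≤ X ∧ Rough (2 ^ 2 ^ I) n ∧ Rough (2 ^ 2 ^ I) (n + 24 * k) ∧
        Even (g n + g (n + 24 * k))} : Set ℕ) ⊆ {n : ℕ | 1 ≤ n ∧ n ≤ X ∧
          (∀ p : ℕ, p.Prime → p ∣ n * (n + 24 * k) → (X : ℝ) ^ (δ / 2600) < p) ∧
          Even (g (n * (n + 24 * k)))} := by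
    rintro n ⟨h1, h2, h3, h4, h5⟩
    refine ⟨h1, h2, fun p hp hd => hz.trans ?_, ?_⟩
    · exact_mod_cast (h3.mul h4) p hp hd
    · rw [hg _ _ (by omega) (by omega)]
      exact h5
  exact_mod_cast Set.ncard_le_ncard hsub ((Set.finite_Iic X).subset fun _ hn => hn.2.1)

end Pool.Agent.H505R4
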