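import Pool.Agent.H505R4.DiffMain

/-!
Pairs `(x, 4 x + c)` with prescribed parity, `c` odd and divisible by `3`: the three pairs
`(b, a e)`, `(a b Q, m P)`, `(e P, m Q)` with `a e = 4 b + c`, `m = 8 b + c`, `a + 2 = c j`,
`P = 4 b j + 1`, `Q = 2 j e - 1`.
-/

set_option autoImplicit false

namespace Pool.Agent.H505R4

open Finset Filter Pool.Agent.H505R2 Pool.Agent.H505R3

lemma idf2 {a b c e j P Q : ℕ} (h1 : a * e = 4 * b + c) (ha : a + 2 = c * j)
    (hP : P = 4 * b * j + 1) (hQ : Q + 1 = 2 * j * e) :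
    4 * (a * b * Q) + c = (8 * b + c) * P := by
  have h1' : (a : ℤ) * e = 4 * b + c := by exact_mod_cast h1
  have ha' : (a : ℤ) + 2 = c * j := by exact_mod_cast ha
  have hP' : (P : ℤ) = 4 * b * j + 1 := by exact_mod_cast hP
  have hQ' : (Q : ℤ) = 2 * j * e - 1 := by
    have : (Q : ℤ) + 1 = 2 * j * e := by exact_mod_cast hQ
    linarith
  have h : 4 * ((a : ℤ) * b * Q) + c = (8 * b + c) * P := by
    rw [hP', hQ']
    linear_combination (8 * b * j) * h1' - 4 * b * ha'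
  exact_mod_cast h

lemma idf3 {a b c e j P Q : ℕ} (h1 : a * e = 4 * b + c) (ha : a + 2 = c * j)
    (hP : P = 4 * b * j + 1) (hQ : Q + 1 = 2 * j * e) :
    4 * (e * P) + c = (8 * b + c) * Q := by
  have h1' : (a : ℤ) * e = 4 * b + c := by exact_mod_cast h1
  have ha' : (a : ℤ) + 2 = c * j := by exact_mod_cast ha
  have hP' : (P : ℤ) = 4 * b * j + 1 := by exact_mod_cast hP
  have hQ' : (Q : ℤ) = 2 * j * e - 1 := by
    have : (Q : ℤ) + 1 = 2 * j * e := by exact_mod_cast hQ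
    linarith
  have h : 4 * ((e : ℤ) * P) + c = (8 * b + c) * Q := by
    rw [hP', hQ']
    linear_combination (-2 : ℤ) * h1' + 2 * e * ha'
  exact_mod_cast h

lemma sum_evenf (g : ℕ → ℕ) (hg : ∀ a b : ℕ, a ≠ 0 → b ≠ 0 → g (a * b) = g a + g b)
    {a b e m P Q : ℕ} (ha : a ≠ 0) (hb : b ≠ 0) (he : e ≠ 0) (hm : m ≠ 0) (hP : P ≠ 0)
    (hQ : Q ≠ 0) :
    Even (g b + g (a * e)) ∨ Even (g (a * b * Q) + g (m * P)) ∨ Even (g (e * P) + g (m * Q)) := by
  rw [hg _ _ ha he, hg _ _ (mul_ne_zero ha hb) hQ, hg _ _ ha hb, hg _ _ hm hP, hg _ _ he hP,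
    hg _ _ hm hQ]
  simp only [Nat.even_iff]
  omega

/-- leading coefficients of the five forms -/
def alf (a j : ℕ) : Fin 5 → ℤ := ![24, 6 * a, 48 * a, 48 * j, 24 * a * j]

/-- constant terms of the five forms -/
def bef (b0 c e0 j : ℕ) : Fin 5 → ℤ := ![e0, b0, 8 * b0 + c, 2 * j * e0 - 1, 4 * b0 * j + 1]

lemma forms_coprimef {a b0 c e0 j : ℕ} (ha : a + 2 = c * j)
    (h0 : a * e0 = 4 * b0 + c) :
    ∀ p : ℕ, p.Prime → 5 ≤ p → ∀ i, ¬ ((p : ℤ) ∣ alf a j i ∧ (p : ℤ) ∣ bef b0 c e0 j i) := by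
  intro p hp h5
  obtain ⟨n2, n6, n12, n24⟩ := not_dvd_of h5 hp
  have hpi := Nat.prime_iff_prime_int.1 hp
  have ha' : (a : ℤ) + 2 = c * j := by exact_mod_cast ha
  have h0' : (a : ℤ) * e0 = 4 * b0 + c := by exact_mod_cast h0
  have n1 : ¬ (p : ℤ) ∣ 1 := fun h => n2 (h.trans (one_dvd _))
  have n48 : ¬ (p : ℤ) ∣ 48 := by
    intro h
    have h' : (p : ℤ) ∣ 2 * 24 := by norm_num; exact h
    rcases hpi.dvd_or_dvd h' with h | h
    · exact n2 h
    · exact n24 h
  have hac : (p : ℤ) ∣ a → ¬ (p : ℤ) ∣ c := by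
    intro h1 h2
    apply n2
    have h3 : (2 : ℤ) = c * j - a := by linarith
    rw [h3]
    exact dvd_sub (h2.mul_right _) h1
  intro i
  fin_cases i
  · rintro ⟨h1, -⟩
    exact n24 h1
  · rintro ⟨h1, h2⟩
    have h1' : (p : ℤ) ∣ 6 * a := h1
    have h2' : (p : ℤ) ∣ b0 := h2
    rcases hpi.dvd_or_dvd h1' with h | h
    · exact n6 h
    · apply hac h
      have h4 : (c : ℤ) = a * e0 - 4 * b0 := by linarith
      rw [h4]
      exact dvd_sub (h.mul_right _) (h2'.mul_left _)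
  · rintro ⟨h1, h2⟩
    have h1' : (p : ℤ) ∣ 48 * a := h1
    have h2' : (p : ℤ) ∣ 8 * b0 + c := h2
    rcases hpi.dvd_or_dvd h1' with h | h
    · exact n48 h
    · apply hac h
      have h4 : (c : ℤ) = 2 * (a * e0) - (8 * b0 + c) := by linear_combination (-2) * h0'
      rw [h4]
      exact dvd_sub ((h.mul_right _).mul_left _) h2'
  · rintro ⟨h1, h2⟩
    have h1' : (p : ℤ) ∣ 48 * j := h1
    have h2' : (p : ℤ) ∣ 2 * j * e0 - 1 := h2
    rcases hpi.dvd_or_dvd h1' with h | h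
    · exact n48 h
    · apply n1
      have h4 : (1 : ℤ) = 2 * e0 * j - (2 * j * e0 - 1) := by ring
      rw [h4]
      exact dvd_sub (h.mul_left _) h2'
  · rintro ⟨h1, h2⟩
    have h1' : (p : ℤ) ∣ 24 * a * j := h1
    have h2' : (p : ℤ) ∣ 4 * b0 * j + 1 := h2
    rcases hpi.dvd_or_dvd h1' with h | h
    · rcases hpi.dvd_or_dvd h with h | h
      · exact n24 h
      · apply n1
        have h4 : (1 : ℤ) = (e0 * j - 1) * a - (4 * b0 * j + 1) := by
          linear_combination (-(j : ℤ)) * h0' + ha'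
        rw [h4]
        exact dvd_sub (h.mul_left _) h2'
    · apply n1
      have h4 : (1 : ℤ) = (4 * b0 * j + 1) - 4 * b0 * j := by ring
      rw [h4]
      exact dvd_sub h2' (h.mul_left _)

/-- finite version -/
theorem count_four (g : ℕ → ℕ) (hg : ∀ a b : ℕ, a ≠ 0 → b ≠ 0 → g (a * b) = g a + g b)
    (I : ℕ) (hI : 1 ≤ I) (c j a u K X : ℕ) (hc2 : c % 2 = 1) (hc3 : c % 3 = 0) (hu : u % 2 = 1)
    (hj : j = 15 * u) (ha : a + 2 = c * j) (hra : Rough (2 ^ 2 ^ I) a)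
    (hX : a ^ 2 * j * (24 * K + 24) ^ 2 ≤ X) :
    (K : ℝ) * (Real.exp (-96) ^ I / 2) - (2 : ℝ) ^ (1292 * 2 ^ I) ≤
      3 * (({n : ℕ | 1 ≤ n ∧ n ≤ X ∧ Rough (2 ^ 2 ^ I) n ∧ Rough (2 ^ 2 ^ I) (4 * n + c) ∧
        Even (g n + g (4 * n + c))} : Set ℕ).ncard : ℝ) := by
  classical
  -- residues
  have hc1 : 1 ≤ c := by omega
  have hj15 : 15 ≤ j := by omega
  have hcj : c * 15 ≤ c * j := Nat.mul_le_mul_left _ hj15
  have hj2 : j % 2 = 1 := by omega
  have hj3 : j % 3 = 0 := by omega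
  have hcj2 : (c * j) % 2 = 1 := by rw [Nat.mul_mod, hc2, hj2]
  have hcj3 : (c * j) % 3 = 0 := by rw [Nat.mul_mod, hc3]; simp
  have ha2 : a % 2 = 1 := by omega
  have ha3 : a % 3 = 1 := by omega
  have hac : c ≤ a := by omega
  obtain ⟨e0, he1, he24, he3, he8⟩ : ∃ e0, 1 ≤ e0 ∧ e0 ≤ 24 ∧ e0 % 3 = 1 ∧
      (a * e0) % 8 = (c + 4) % 8 := by
    have key : ∀ x ∈ ({1, 3, 5, 7} : Finset ℕ), ∀ y ∈ ({1, 3, 5, 7} : Finset ℕ),
        ∃ e0 ∈ Icc 1 24, e0 % 3 = 1 ∧ (x * e0) % 8 = (y + 4) % 8 := by decide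
    have h1 : a % 8 ∈ ({1, 3, 5, 7} : Finset ℕ) := by
      have : a % 8 = 1 ∨ a % 8 = 3 ∨ a % 8 = 5 ∨ a % 8 = 7 := by omega
      simpa using this
    have h2 : c % 8 ∈ ({1, 3, 5, 7} : Finset ℕ) := by
      have : c % 8 = 1 ∨ c % 8 = 3 ∨ c % 8 = 5 ∨ c % 8 = 7 := by omega
      simpa using this
    obtain ⟨e0, he0, h3, h4⟩ := key _ h1 _ h2
    rw [mem_Icc] at he0
    refine ⟨e0, he0.1, he0.2, h3, ?_⟩
    rw [Nat.mul_mod] at h4 ⊢
    rw [Nat.mod_mod] at h4
    omega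
  have hae0 : a ≤ a * e0 := Nat.le_mul_of_pos_right _ he1
  obtain ⟨b0, hb0⟩ : ∃ b0, a * e0 = 4 * b0 + c := ⟨(a * e0 - c) / 4, by omega⟩
  have hb0odd : b0 % 2 = 1 := by omega
  have hae3 : (a * e0) % 3 = 1 := by rw [Nat.mul_mod, ha3, he3]
  have hb03 : b0 % 3 = 1 := by omega
  have he2 : e0 % 2 = 1 := by
    by_contra hcon
    have h0 : e0 % 2 = 0 := by omega
    have : (a * e0) % 2 = 0 := by rw [Nat.mul_mod, h0]; simp
    omega
  have h5 : (5 : ℤ) ∣ alf a j 3 := by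
    show (5 : ℤ) ∣ 48 * (j : ℤ)
    rw [hj]
    push_cast
    exact ⟨144 * u, by ring⟩
  refine (sift5 (alf a j) (bef b0 c e0 j) (forms_coprimef ha hb0) h5 I hI K).trans ?_
  obtain ⟨T, hT⟩ : ∃ T, T = (Ioc 0 K).filter
    (fun n => ∀ p ∈ SP I, ¬ D5 (alf a j) (bef b0 c e0 j) p n) := ⟨_, rfl⟩
  rw [← hT]
  set G : Set ℕ := {n : ℕ | 1 ≤ n ∧ n ≤ X ∧ Rough (2 ^ 2 ^ I) n ∧ Rough (2 ^ 2 ^ I) (4 * n + c) ∧
        Even (g n + g (4 * n + c))} with hG
  have hGf : G.Finite := (Set.finite_Iic X).subset fun _ hn => hn.2.1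
  -- the factors as functions of `t`
  obtain ⟨ef, hef⟩ : ∃ ef : ℕ → ℕ, ∀ t, ef t = 24 * t + e0 := ⟨fun t => 24 * t + e0, fun _ => rfl⟩
  obtain ⟨bf, hbf⟩ : ∃ bf : ℕ → ℕ, ∀ t, bf t = 6 * (a * t) + b0 :=
    ⟨fun t => 6 * (a * t) + b0, fun _ => rfl⟩
  obtain ⟨Pf, hPf⟩ : ∃ Pf : ℕ → ℕ, ∀ t, Pf t = 4 * bf t * j + 1 :=
    ⟨fun t => 4 * bf t * j + 1, fun _ => rfl⟩
  obtain ⟨Qf, hQf⟩ : ∃ Qf : ℕ → ℕ, ∀ t, Qf t + 1 = 2 * j * ef t :=
    ⟨fun t => 2 * j * ef t - 1, fun t => by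
      have : 0 < 2 * j * ef t := by rw [hef]; positivity
      show 2 * j * ef t - 1 + 1 = _
      omega⟩
  have hab : ∀ t, a * ef t = 4 * bf t + c := by
    intro t
    rw [hef, hbf]
    have : a * (24 * t + e0) = 4 * (6 * (a * t)) + a * e0 := by ring
    omega
  have apos : 0 < a := by omega
  have bpos : ∀ t, 0 < bf t := by
    intro t
    rw [hbf]
    omega
  have epos : ∀ t, 0 < ef t := by
    intro t
    rw [hef]
    omega
  have Qpos : ∀ t, 0 < Qf t := by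
    intro t
    have h1 := hQf t
    have h2 := epos t
    have : 2 * 1 * 1 ≤ 2 * j * ef t := Nat.mul_le_mul (Nat.mul_le_mul_left _ (by omega)) h2
    omega
  have Ppos : ∀ t, 0 < Pf t := by
    intro t
    rw [hPf]
    omega
  have hemono : StrictMono ef := by
    intro t s hts
    rw [hef, hef]
    omega
  have hbmono : StrictMono bf := by
    intro t s hts
    rw [hbf, hbf]
    have : a * t < a * s := Nat.mul_lt_mul_of_pos_left hts apos
    omega
  have hPmono : Monotone Pf := by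
    intro t s hts
    rw [hPf, hPf]
    have : bf t ≤ bf s := hbmono.monotone hts
    gcongr
  have hQmono : Monotone Qf := by
    intro t s hts
    have h1 := hQf t
    have h2 := hQf s
    have : 2 * j * ef t ≤ 2 * j * ef s := Nat.mul_le_mul_left _ (hemono.monotone hts)
    omega
  have hmem : ∀ t ∈ T, 0 < t ∧ t ≤ K ∧ Rough (2 ^ 2 ^ I) (ef t) ∧ Rough (2 ^ 2 ^ I) (bf t) ∧
      Rough (2 ^ 2 ^ I) (8 * bf t + c) ∧ Rough (2 ^ 2 ^ I) (Qf t) ∧ Rough (2 ^ 2 ^ I) (Pf t) := by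
    intro t ht
    rw [hT, mem_filter, mem_Ioc] at ht
    have hD : ∀ i, ∀ p ∈ SP I, ¬ (p : ℤ) ∣ alf a j i * t + bef b0 c e0 j i :=
      fun i p hp h => ht.2 p hp ⟨i, h⟩
    have hQ' : (Qf t : ℤ) = 2 * j * (24 * t + e0) - 1 := by
      have : (Qf t : ℤ) + 1 = 2 * j * ef t := by exact_mod_cast hQf t
      rw [hef t] at this
      push_cast at this
      linarith
    have hb2 : bf t % 2 = 1 := by
      rw [hbf]
      omega
    have hb3 : bf t % 3 = 1 := by
      rw [hbf]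
      omega
    have hbj3 : (4 * bf t * j) % 3 = 0 := by rw [Nat.mul_mod, hj3]; simp
    have hbj2 : (4 * bf t * j) % 2 = 0 := by
      have : 4 * bf t * j = 2 * (2 * bf t * j) := by ring
      omega
    have hje3 : (2 * j * ef t) % 3 = 0 := by
      have : 2 * j * ef t = 3 * (10 * u * ef t) := by rw [hj]; ring
      omega
    have hje2 : (2 * j * ef t) % 2 = 0 := by
      have : 2 * j * ef t = 2 * (j * ef t) := by ring
      omega
    have hQt := hQf t
    refine ⟨ht.1.1, ht.1.2, ?_, ?_, ?_, ?_, ?_⟩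
    · apply rough_of (by rw [hef]; omega) (by rw [hef]; omega)
      intro p hp h
      apply hD 0 p hp
      have : alf a j 0 * t + bef b0 c e0 j 0 = (ef t : ℤ) := by
        show (24 : ℤ) * t + e0 = _
        rw [hef]; push_cast; ring
      rw [this]; exact h
    · apply rough_of hb2 (by omega)
      intro p hp h
      apply hD 1 p hp
      have : alf a j 1 * t + bef b0 c e0 j 1 = (bf t : ℤ) := by
        show (6 : ℤ) * a * t + b0 = _
        rw [hbf]; push_cast; ring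
      rw [this]; exact h
    · apply rough_of (by omega) (by omega)
      intro p hp h
      apply hD 2 p hp
      have : alf a j 2 * t + bef b0 c e0 j 2 = ((8 * bf t + c : ℕ) : ℤ) := by
        show (48 : ℤ) * a * t + (8 * b0 + c) = _
        rw [hbf]; push_cast; ring
      rw [this]; exact h
    · apply rough_of (by omega) (by omega)
      intro p hp h
      apply hD 3 p hp
      have : alf a j 3 * t + bef b0 c e0 j 3 = (Qf t : ℤ) := by
        show (48 : ℤ) * j * t + (2 * j * e0 - 1) = _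
        rw [hQ']; ring
      rw [this]; exact h
    · apply rough_of (by rw [hPf]; omega) (by rw [hPf]; omega)
      intro p hp h
      apply hD 4 p hp
      have : alf a j 4 * t + bef b0 c e0 j 4 = (Pf t : ℤ) := by
        show (24 : ℤ) * a * j * t + (4 * b0 * j + 1) = _
        rw [hPf, hbf]; push_cast; ring
      rw [this]; exact h
  have hid : ∀ t, 4 * (a * bf t * Qf t) + c = (8 * bf t + c) * Pf t ∧
      4 * (ef t * Pf t) + c = (8 * bf t + c) * Qf t := fun t =>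
    ⟨idf2 (hab t) ha (hPf t) (hQf t), idf3 (hab t) ha (hPf t) (hQf t)⟩
  have hbound : ∀ t, t ≤ K → bf t ≤ X ∧ a * bf t * Qf t ≤ X ∧ ef t * Pf t ≤ X := by
    intro t htK
    have h1 := hab t
    have he : ef t ≤ 24 * K + 24 := by rw [hef]; omega
    have e1 : a ^ 2 * j * (ef t) ^ 2 ≤ X :=
      le_trans (Nat.mul_le_mul_left _ (Nat.pow_le_pow_left he 2)) hX
    have hjpos : 0 < j := by omega
    have het := epos t
    have e2 : a * ef t ≤ a ^ 2 * j * (ef t) ^ 2 := by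
      calc a * ef t ≤ (a * ef t) * (a * j * ef t) := Nat.le_mul_of_pos_right _ (by positivity)
        _ = a ^ 2 * j * (ef t) ^ 2 := by ring
    have hQ1 := hQf t
    refine ⟨by omega, ?_, ?_⟩
    · have e3 : 4 * (a * bf t * Qf t) ≤ a * (a * ef t) * (2 * j * ef t) := by
        calc 4 * (a * bf t * Qf t) = a * (4 * bf t) * Qf t := by ring
          _ ≤ a * (a * ef t) * (2 * j * ef t) :=
            Nat.mul_le_mul (Nat.mul_le_mul_left _ (by omega)) (by omega)
      have e4 : a * (a * ef t) * (2 * j * ef t) = 2 * (a ^ 2 * j * (ef t) ^ 2) := by ring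
      omega
    · have e3 : Pf t ≤ a * ef t * j := by
        rw [hPf]
        have e5 : a * ef t * j = 4 * bf t * j + c * j := by rw [h1]; ring
        omega
      calc ef t * Pf t ≤ ef t * (a * ef t * j) := Nat.mul_le_mul_left _ e3
        _ ≤ ef t * (a * ef t * j) * a := Nat.le_mul_of_pos_right _ apos
        _ = a ^ 2 * j * (ef t) ^ 2 := by ring
        _ ≤ X := e1
  obtain ⟨T1, hT1⟩ : ∃ T1, T1 = T.filter (fun t => Even (g (bf t) + g (4 * bf t + c))) := ⟨_, rfl⟩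
  obtain ⟨T2, hT2⟩ : ∃ T2, T2 = T.filter (fun t => Even (g (a * bf t * Qf t) +
    g (4 * (a * bf t * Qf t) + c))) := ⟨_, rfl⟩
  obtain ⟨T3, hT3⟩ : ∃ T3, T3 = T.filter (fun t => Even (g (ef t * Pf t) +
    g (4 * (ef t * Pf t) + c))) := ⟨_, rfl⟩
  have hcover : T ⊆ T1 ∪ (T2 ∪ T3) := by
    intro t ht
    rw [mem_union, mem_union, hT1, hT2, hT3, mem_filter, mem_filter, mem_filter]
    rw [(hid t).1, (hid t).2, ← hab t]
    rcases sum_evenf g hg (a := a) (b := bf t) (e := ef t) (m := 8 * bf t + c) (P := Pf t)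
      (Q := Qf t) (by omega) (bpos t).ne' (epos t).ne' (by omega) (Ppos t).ne' (Qpos t).ne'
      with h | h | h
    · exact Or.inl ⟨ht, h⟩
    · exact Or.inr (Or.inl ⟨ht, h⟩)
    · exact Or.inr (Or.inr ⟨ht, h⟩)
  have c1 : T1.card ≤ G.ncard := by
    rw [← Set.ncard_coe_finset]
    apply Set.ncard_le_ncard_of_injOn bf _ hbmono.injective.injOn hGf
    intro t ht
    rw [mem_coe, hT1, mem_filter] at ht
    obtain ⟨h0, hK, r1, r2, r3, r4, r5⟩ := hmem t ht.1
    refine ⟨bpos t, (hbound t hK).1, r2, ?_, ht.2⟩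
    rw [← hab t]
    exact hra.mul r1
  have c2 : T2.card ≤ G.ncard := by
    rw [← Set.ncard_coe_finset]
    apply Set.ncard_le_ncard_of_injOn (fun t => a * bf t * Qf t) _ _ hGf
    · intro t ht
      rw [mem_coe, hT2, mem_filter] at ht
      obtain ⟨h0, hK, r1, r2, r3, r4, r5⟩ := hmem t ht.1
      refine ⟨?_, (hbound t hK).2.1, (hra.mul r2).mul r4, ?_, ht.2⟩
      · show 1 ≤ a * bf t * Qf t
        exact Nat.one_le_iff_ne_zero.2
          (mul_ne_zero (mul_ne_zero (by omega) (bpos t).ne') (Qpos t).ne')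
      · show Rough _ (4 * (a * bf t * Qf t) + c)
        rw [(hid t).1]
        exact r3.mul r5
    · have hmono : StrictMono (fun t : ℕ => a * bf t * Qf t) := by
        intro t s hts
        show a * bf t * Qf t < a * bf s * Qf s
        exact Nat.mul_lt_mul_of_lt_of_le (Nat.mul_lt_mul_of_pos_left (hbmono hts) apos)
          (hQmono hts.le) (Qpos s)
      exact hmono.injective.injOn
  have c3 : T3.card ≤ G.ncard := by
    rw [← Set.ncard_coe_finset]
    apply Set.ncard_le_ncard_of_injOn (fun t => ef t * Pf t) _ _ hGf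
    · intro t ht
      rw [mem_coe, hT3, mem_filter] at ht
      obtain ⟨h0, hK, r1, r2, r3, r4, r5⟩ := hmem t ht.1
      refine ⟨?_, (hbound t hK).2.2, r1.mul r5, ?_, ht.2⟩
      · show 1 ≤ ef t * Pf t
        exact Nat.one_le_iff_ne_zero.2 (mul_ne_zero (epos t).ne' (Ppos t).ne')
      · show Rough _ (4 * (ef t * Pf t) + c)
        rw [(hid t).2]
        exact r3.mul r4
    · have hmono : StrictMono (fun t : ℕ => ef t * Pf t) := by
        intro t s hts
        show ef t * Pf t < ef s * Pf s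
        exact Nat.mul_lt_mul_of_lt_of_le (hemono hts) (hPmono hts.le) (Ppos s)
      exact hmono.injective.injOn
  have h1 := (card_le_card hcover).trans ((card_union_le _ _).trans
    (Nat.add_le_add_left (card_union_le _ _) _))
  have h2 : T.card ≤ 3 * G.ncard := by omega
  exact_mod_cast h2

end Pool.Agent.H505R4
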