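import Mathlib

/-!
Real characters modulo `3`, `4`, `8` as parity counts.
-/

set_option autoImplicit false

namespace Pool.Agent.H505R4

open Classical in
/-- number of prime factors of `m` in `S`, counted with multiplicity -/
noncomputable def cnt (S : Set ℕ) (m : ℕ) : ℕ := m.primeFactorsList.countP (fun p => decide (p ∈ S))

lemma cnt_mul (S : Set ℕ) (a b : ℕ) (ha : a ≠ 0) (hb : b ≠ 0) :
    cnt S (a * b) = cnt S a + cnt S b := by
  classical
  unfold cnt
  have h3 := (Nat.perm_primeFactorsList_mul ha hb).countP_eq (fun p => decide (p ∈ S))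
  rw [List.countP_append] at h3
  exact h3

lemma list3 : ∀ l : List ℕ, (∀ p ∈ l, p % 3 ≠ 0) →
    (Even (l.countP (fun p => decide (p % 3 = 2))) ∧ l.prod % 3 = 1) ∨
    (Odd (l.countP (fun p => decide (p % 3 = 2))) ∧ l.prod % 3 = 2)
  | [], _ => by simp
  | a :: l, h => by
    have ih := list3 l (fun p hp => h p (List.mem_cons_of_mem _ hp))
    have ha := h a List.mem_cons_self
    rw [List.countP_cons, List.prod_cons, Nat.mul_mod]
    have h3 : a % 3 = 1 ∨ a % 3 = 2 := by omega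
    rcases h3 with h3 | h3 <;> rcases ih with ⟨h1, h2⟩ | ⟨h1, h2⟩ <;>
      simp only [h3, h2, Nat.even_iff, Nat.odd_iff] at h1 ⊢ <;> simp <;> omega

lemma list4 : ∀ l : List ℕ, (∀ p ∈ l, p % 2 ≠ 0) →
    (Even (l.countP (fun p => decide (p % 4 = 3))) ∧ l.prod % 4 = 1) ∨
    (Odd (l.countP (fun p => decide (p % 4 = 3))) ∧ l.prod % 4 = 3)
  | [], _ => by simp
  | a :: l, h => by
    have ih := list4 l (fun p hp => h p (List.mem_cons_of_mem _ hp))
    have ha := h a List.mem_cons_self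
    rw [List.countP_cons, List.prod_cons, Nat.mul_mod]
    have h3 : a % 4 = 1 ∨ a % 4 = 3 := by omega
    rcases h3 with h3 | h3 <;> rcases ih with ⟨h1, h2⟩ | ⟨h1, h2⟩ <;>
      simp only [h3, h2, Nat.even_iff, Nat.odd_iff] at h1 ⊢ <;> simp <;> omega

/-- the residues `3`, `5` modulo `8` -/
def c8 (p : ℕ) : Bool := decide (p % 8 = 3 ∨ p % 8 = 5)

lemma list8' : ∀ l : List ℕ, (∀ p ∈ l, p % 2 ≠ 0) →
    (Even (l.countP c8) ∧ (l.prod % 8 = 1 ∨ l.prod % 8 = 7)) ∨
    (Odd (l.countP c8) ∧ (l.prod % 8 = 3 ∨ l.prod % 8 = 5))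
  | [], _ => by simp
  | a :: l, h => by
    have ih := list8' l (fun p hp => h p (List.mem_cons_of_mem _ hp))
    have ha := h a List.mem_cons_self
    rw [List.countP_cons, List.prod_cons, Nat.mul_mod]
    have h3 : (a % 8 = 1 ∧ c8 a = false) ∨ (a % 8 = 3 ∧ c8 a = true) ∨ (a % 8 = 5 ∧ c8 a = true) ∨
        (a % 8 = 7 ∧ c8 a = false) := by
      have : a % 8 = 1 ∨ a % 8 = 3 ∨ a % 8 = 5 ∨ a % 8 = 7 := by omega
      unfold c8
      rcases this with e | e | e | e <;> simp [e]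
    rcases h3 with ⟨h3, h4⟩ | ⟨h3, h4⟩ | ⟨h3, h4⟩ | ⟨h3, h4⟩ <;>
      rcases ih with ⟨h1, h2 | h2⟩ | ⟨h1, h2 | h2⟩ <;>
      simp only [h3, h2, h4, Nat.even_iff, Nat.odd_iff] at h1 ⊢ <;> simp <;> omega

lemma list8 (l : List ℕ) (h : ∀ p ∈ l, p % 2 ≠ 0) :
    (Even (l.countP (fun p => decide (p % 8 = 3 ∨ p % 8 = 5))) ∧
      (l.prod % 8 = 1 ∨ l.prod % 8 = 7)) ∨
    (Odd (l.countP (fun p => decide (p % 8 = 3 ∨ p % 8 = 5))) ∧
      (l.prod % 8 = 3 ∨ l.prod % 8 = 5)) := list8' l h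

/-- for even `h` not divisible by `24` a real character fixes the parity to be odd -/
theorem obstruction (h : ℕ) (he : Even h) (h24 : ¬ 24 ∣ h) : ∃ S : Set ℕ, ∀ n : ℕ, 1 ≤ n →
    Nat.Coprime (n * (n + h)) 6 → Odd (cnt S (n * (n + h))) := by
  classical
  have key : ∀ m : ℕ, m ≠ 0 → Nat.Coprime m 6 → (∀ p ∈ m.primeFactorsList, p % 3 ≠ 0) ∧
      (∀ p ∈ m.primeFactorsList, p % 2 ≠ 0) ∧ m.primeFactorsList.prod = m := by
    intro m hm hc
    refine ⟨fun p hp h3 => ?_, fun p hp h2 => ?_, Nat.prod_primeFactorsList hm⟩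
    · have h1 := Nat.dvd_of_mem_primeFactorsList hp
      have h4 : 3 ∣ Nat.gcd m 6 := Nat.dvd_gcd ((Nat.dvd_of_mod_eq_zero h3).trans h1) (by norm_num)
      rw [hc] at h4
      omega
    · have h1 := Nat.dvd_of_mem_primeFactorsList hp
      have h4 : 2 ∣ Nat.gcd m 6 := Nat.dvd_gcd ((Nat.dvd_of_mod_eq_zero h2).trans h1) (by norm_num)
      rw [hc] at h4
      omega
  have hcop : ∀ n : ℕ, Nat.Coprime (n * (n + h)) 6 → n % 2 = 1 ∧ n % 3 ≠ 0 ∧ (n + h) % 3 ≠ 0 := by
    intro n hc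
    have c1 : Nat.Coprime n 6 := Nat.Coprime.coprime_mul_right hc
    have c2 : Nat.Coprime (n + h) 6 := Nat.Coprime.coprime_mul_left hc
    have aux : ∀ m q : ℕ, q ∣ 6 → 1 < q → Nat.Coprime m 6 → m % q ≠ 0 := by
      intro m q hq hq1 hc h0
      have h4 : q ∣ Nat.gcd m 6 := Nat.dvd_gcd (Nat.dvd_of_mod_eq_zero h0) hq
      rw [hc] at h4
      have := Nat.le_of_dvd (by norm_num) h4
      omega
    have := aux n 2 (by norm_num) (by norm_num) c1
    exact ⟨by omega, aux n 3 (by norm_num) (by norm_num) c1,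
      aux (n + h) 3 (by norm_num) (by norm_num) c2⟩
  rw [Nat.even_iff] at he
  by_cases h3 : h % 3 = 0
  · by_cases h4 : h % 4 = 0
    · -- character modulo 8
      have h8 : h % 8 = 4 := by omega
      refine ⟨{p | p % 8 = 3 ∨ p % 8 = 5}, fun n hn hc => ?_⟩
      obtain ⟨k3, k2, kp⟩ := key _ (mul_ne_zero (by omega) (by omega)) hc
      obtain ⟨n2, -, -⟩ := hcop n hc
      have hl := list8 _ k2
      rw [kp] at hl
      have hm : (n * (n + h)) % 8 = 5 := by
        rw [Nat.mul_mod, Nat.add_mod, h8]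
        have : n % 8 = 1 ∨ n % 8 = 3 ∨ n % 8 = 5 ∨ n % 8 = 7 := by omega
        rcases this with e | e | e | e <;> rw [e]
      have e : cnt {p | p % 8 = 3 ∨ p % 8 = 5} (n * (n + h)) =
          (n * (n + h)).primeFactorsList.countP (fun p => decide (p % 8 = 3 ∨ p % 8 = 5)) := by
        unfold cnt
        congr 1
        funext p
        exact decide_eq_decide.2 Iff.rfl
      rw [e]
      rcases hl with ⟨-, h1 | h1⟩ | ⟨h1, -⟩
      · omega
      · omega
      · exact h1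
    · -- character modulo 4
      have h42 : h % 4 = 2 := by omega
      refine ⟨{p | p % 4 = 3}, fun n hn hc => ?_⟩
      obtain ⟨k3, k2, kp⟩ := key _ (mul_ne_zero (by omega) (by omega)) hc
      obtain ⟨n2, -, -⟩ := hcop n hc
      have hl := list4 _ k2
      rw [kp] at hl
      have hm : (n * (n + h)) % 4 = 3 := by
        rw [Nat.mul_mod, Nat.add_mod, h42]
        have : n % 4 = 1 ∨ n % 4 = 3 := by omega
        rcases this with e | e <;> rw [e]
      have e : cnt {p | p % 4 = 3} (n * (n + h)) =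
          (n * (n + h)).primeFactorsList.countP (fun p => decide (p % 4 = 3)) := by
        unfold cnt
        congr 1
        funext p
        exact decide_eq_decide.2 Iff.rfl
      rw [e]
      rcases hl with ⟨-, h1⟩ | ⟨h1, -⟩
      · omega
      · exact h1
  · -- character modulo 3
    refine ⟨{p | p % 3 = 2}, fun n hn hc => ?_⟩
    obtain ⟨k3, k2, kp⟩ := key _ (mul_ne_zero (by omega) (by omega)) hc
    obtain ⟨-, n3, nh3⟩ := hcop n hc
    have hl := list3 _ k3
    rw [kp] at hl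
    have hm : (n * (n + h)) % 3 = 2 := by
      rw [Nat.mul_mod]
      have : (n % 3 = 1 ∧ (n + h) % 3 = 2) ∨ (n % 3 = 2 ∧ (n + h) % 3 = 1) := by omega
      rcases this with ⟨e1, e2⟩ | ⟨e1, e2⟩ <;> rw [e1, e2]
    have e : cnt {p | p % 3 = 2} (n * (n + h)) =
        (n * (n + h)).primeFactorsList.countP (fun p => decide (p % 3 = 2)) := by
      unfold cnt
      congr 1
      funext p
      exact decide_eq_decide.2 Iff.rfl
    rw [e]
    rcases hl with ⟨-, h1⟩ | ⟨h1, -⟩
    · omega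
    · exact h1

end Pool.Agent.H505R4
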