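import Pool.Agent.H505R4.Four
import Pool.Agent.H505R4.Obstruct

set_option autoImplicit false

namespace Pool.Agent.H505R4

open Finset Filter Pool.Agent.H505R2 Pool.Agent.H505R3

lemma exists_a {I : ℕ} (hI : 10 ≤ I) (c : ℕ) (hc2 : c % 2 = 1) : ∃ u j a : ℕ,
    u % 2 = 1 ∧ j = 15 * u ∧ a + 2 = c * j ∧ Rough (2 ^ 2 ^ I) a ∧
      (u : ℝ) ≤ 3 * 2 ^ (1300 * 2 ^ I) := by
  obtain ⟨K, hK⟩ : ∃ K : ℕ, K = 2 ^ (1300 * 2 ^ I) := ⟨_, rfl⟩
  have hKr : (K : ℝ) = 2 ^ (1300 * 2 ^ I) := by rw [hK]; push_cast; rfl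
  have hK1 : 1 ≤ K := by rw [hK]; exact Nat.one_le_two_pow
  have h1 := sift5 (fun _ => 30 * (c : ℤ)) (fun _ => 15 * (c : ℤ) - 2) (by
    intro p hp h5 _ h
    have hpi := Nat.prime_iff_prime_int.1 hp
    have h4 : (p : ℤ) ∣ 2 * 2 := by
      have : (2 : ℤ) * 2 = 30 * c - 2 * (15 * c - 2) := by ring
      rw [this]
      exact dvd_sub h.1 (h.2.mul_left _)
    rcases hpi.dvd_or_dvd h4 with h | h <;> exact (not_dvd_of h5 hp).1 h) ⟨6 * c, by ring⟩ I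
    (by omega) K
  have h2 := low_bound hI (K := (K : ℝ)) (by rw [hKr])
  have h3 : (0 : ℝ) < (K : ℝ) / (4 * 2 ^ (139 * I)) := by positivity
  have h4 := lt_of_lt_of_le h3 (h2.trans h1)
  have h5 : 0 < ((Ioc 0 K).filter (fun n => ∀ p ∈ SP I,
      ¬ D5 (fun _ => 30 * (c : ℤ)) (fun _ => 15 * (c : ℤ) - 2) p n)).card := by exact_mod_cast h4
  obtain ⟨t, ht⟩ := card_pos.1 h5
  rw [mem_filter, mem_Ioc] at ht
  obtain ⟨⟨t0, tK⟩, ht⟩ := ht
  have hcc : 1 ≤ c * (2 * t + 1) := Nat.mul_pos (by omega) (by omega)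
  have e15 : c * (15 * (2 * t + 1)) = 15 * (c * (2 * t + 1)) := by ring
  obtain ⟨a, ha⟩ : ∃ a, a + 2 = c * (15 * (2 * t + 1)) := ⟨c * (15 * (2 * t + 1)) - 2, by omega⟩
  have hodd : (c * (2 * t + 1)) % 2 = 1 := by
    rw [Nat.mul_mod, hc2]; omega
  refine ⟨2 * t + 1, 15 * (2 * t + 1), a, by omega, rfl, ha, ?_, ?_⟩
  · apply rough_of (by omega) (by omega)
    intro p hp h
    apply ht p hp
    refine ⟨0, ?_⟩
    have ha' : (a : ℤ) + 2 = c * (15 * (2 * t + 1)) := by exact_mod_cast ha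
    have : 30 * (c : ℤ) * t + (15 * (c : ℤ) - 2) = a := by linear_combination -ha'
    show (p : ℤ) ∣ 30 * (c : ℤ) * t + (15 * (c : ℤ) - 2)
    rw [this]
    exact h
  · rw [← hKr]
    have : 2 * t + 1 ≤ 3 * K := by omega
    exact_mod_cast this

theorem main_four (ε : ℝ) (hε : 0 < ε) : ∃ η : ℝ, 0 < η ∧ ∃ X₀ : ℕ, ∀ g : ℕ → ℕ,
    (∀ a b : ℕ, a ≠ 0 → b ≠ 0 → g (a * b) = g a + g b) → ∀ c X : ℕ, X₀ ≤ X → Odd c → 3 ∣ c →
      (c : ℝ) ≤ (X : ℝ) ^ η → (X : ℝ) ^ (1 / 2 - ε) ≤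
        (({n : ℕ | 1 ≤ n ∧ n ≤ X ∧
          (∀ p : ℕ, p.Prime → p ∣ n * (4 * n + c) → (X : ℝ) ^ η < p) ∧
          Even (g (n * (4 * n + c)))} : Set ℕ).ncard : ℝ) := by
  obtain ⟨δ, hδ0, hδ1, hδε⟩ : ∃ δ : ℝ, 0 < δ ∧ δ ≤ 1 / 8 ∧ 4 * δ ≤ ε := by
    refine ⟨min ε (1 / 2) / 4, by positivity, ?_, ?_⟩
    · have := min_le_right ε (1 / 2)
      linarith
    · have := min_le_left ε (1 / 2)
      linarith
  obtain ⟨B, hB⟩ : ∃ B : ℝ, B = (2 : ℝ) ^ (1300 * 2 ^ 10) := ⟨_, rfl⟩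
  have hev : ∀ᶠ X : ℕ in atTop, B ≤ (X : ℝ) ^ δ ∧ (15000 * 15001 : ℝ) ≤ (X : ℝ) ^ ((1 - 5 * δ) / 2) ∧
      (15001 : ℝ) ≤ (X : ℝ) ^ ((1 - 7 * δ) / 2) ∧ (180012 : ℝ) ≤ (X : ℝ) ^ (δ / 2) ∧ 2 ≤ X := by
    have e1 := ev_ge hδ0 B
    have e2 := ev_ge (show (0 : ℝ) < (1 - 5 * δ) / 2 by linarith) (15000 * 15001 : ℝ)
    have e3 := ev_ge (show (0 : ℝ) < (1 - 7 * δ) / 2 by linarith) (15001 : ℝ)
    have e4 := ev_ge (show (0 : ℝ) < δ / 2 by linarith) (180012 : ℝ)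
    filter_upwards [e1, e2, e3, e4, eventually_ge_atTop 2] with X h1 h2 h3 h4 h5
    exact ⟨h1, h2, h3, h4, h5⟩
  rw [eventually_atTop] at hev
  obtain ⟨X₀, hX₀⟩ := hev
  refine ⟨δ / 2600, by positivity, X₀, fun g hg c X hX hc2 hc3 hcX => ?_⟩
  obtain ⟨a1, a2, a3, a4, a5⟩ := hX₀ X hX
  rw [Nat.odd_iff] at hc2
  have hX0 : (0 : ℝ) < X := by exact_mod_cast (by omega : 0 < X)
  have hX1 : (1 : ℝ) < X := by exact_mod_cast (by omega : 1 < X)
  obtain ⟨x, hx⟩ : ∃ x : ℝ, x = (X : ℝ) ^ δ := ⟨_, rfl⟩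
  obtain ⟨Y, hY⟩ : ∃ Y : ℝ, Y = (X : ℝ) ^ ((1 - 5 * δ) / 2) := ⟨_, rfl⟩
  have hx0 : 0 < x := by rw [hx]; positivity
  have hY0 : 0 < Y := by rw [hY]; positivity
  have hYx : Y ^ 2 * x ^ 5 = X := by
    rw [hY, hx, ← Real.rpow_natCast, ← Real.rpow_natCast, ← Real.rpow_mul hX0.le,
      ← Real.rpow_mul hX0.le, ← Real.rpow_add hX0]
    push_cast
    rw [show (1 - 5 * δ) / 2 * 2 + δ * 5 = 1 by ring, Real.rpow_one]
  have hxY : x * 15001 ≤ Y := by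
    have : Y = x * (X : ℝ) ^ ((1 - 7 * δ) / 2) := by
      rw [hY, hx, ← Real.rpow_add hX0]
      congr 1
      ring
    rw [this]
    exact mul_le_mul_of_nonneg_left a3 hx0.le
  rw [← hx] at a1
  rw [← hY] at a2
  obtain ⟨I, hI0, hI1, hI2⟩ := exists_levelG 1300 (by norm_num) (x := x) 10 (by
    rw [← hB]; exact a1)
  obtain ⟨u, j, a, hu, hj, ha, hra, hule⟩ := exists_a hI0 c hc2
  obtain ⟨K, hK⟩ : ∃ K : ℕ, K = ⌊Y / 15000⌋₊ := ⟨_, rfl⟩
  have hK1 : (K : ℝ) ≤ Y / 15000 := by rw [hK]; exact Nat.floor_le (by positivity)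
  have hK2 : Y / 15000 < K + 1 := by rw [hK]; exact Nat.lt_floor_add_one _
  have hK3 : Y / 15001 ≤ K := by
    have : Y / 15000 - 1 ≥ Y / 15001 := by linarith
    linarith
  have hxK : x ≤ K := by
    refine le_trans ?_ hK3
    rw [le_div_iff₀ (by norm_num)]
    exact hxY
  have hk1 : (1 : ℝ) ≤ K := by
    have : (1 : ℝ) ≤ x := le_trans (one_le_pow₀ (by norm_num)) hI1
    linarith
  have hux : (u : ℝ) ≤ 3 * x := by linarith
  have hcx : (c : ℝ) ≤ x := by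
    refine hcX.trans ?_
    rw [hx]
    exact Real.rpow_le_rpow_of_exponent_le hX1.le (by linarith)
  have hjx : (j : ℝ) ≤ 45 * x := by
    rw [hj]
    push_cast
    linarith
  have hax : (a : ℝ) ≤ 45 * x ^ 2 := by
    have h1 : (a : ℝ) + 2 = c * j := by exact_mod_cast ha
    have h2 : (c : ℝ) * j ≤ x * (45 * x) := mul_le_mul hcx hjx (Nat.cast_nonneg _) hx0.le
    nlinarith
  have hKX : a ^ 2 * j * (24 * K + 24) ^ 2 ≤ X := by
    have h1 : ((24 * K + 24 : ℕ) : ℝ) ≤ 48 * (Y / 15000) := by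
      push_cast
      linarith
    have h2 : ((24 * K + 24 : ℕ) : ℝ) ^ 2 ≤ (48 * (Y / 15000)) ^ 2 :=
      pow_le_pow_left₀ (Nat.cast_nonneg _) h1 2
    have h3 : (a : ℝ) ^ 2 ≤ (45 * x ^ 2) ^ 2 := pow_le_pow_left₀ (Nat.cast_nonneg _) hax 2
    have h4 : (a : ℝ) ^ 2 * (j : ℝ) * ((24 * K + 24 : ℕ) : ℝ) ^ 2 ≤
        (45 * x ^ 2) ^ 2 * (45 * x) * (48 * (Y / 15000)) ^ 2 :=
      mul_le_mul (mul_le_mul h3 hjx (Nat.cast_nonneg _) (by positivity)) h2 (by positivity)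
        (by positivity)
    have h5 : (45 * x ^ 2) ^ 2 * (45 * x) * (48 * (Y / 15000)) ^ 2 =
        (209952000 / 225000000) * (Y ^ 2 * x ^ 5) := by ring
    rw [h5, hYx] at h4
    have h6 : (209952000 / 225000000 : ℝ) * X ≤ X := by nlinarith
    exact_mod_cast h4.trans h6
  have hcount := count_four g hg I (by omega) c j a u K X hc2 (by omega) hu hj ha hra hKX
  have hlow := low_bound hI0 (K := (K : ℝ)) (hI1.trans hxK)
  -- sifting limit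
  have hz : (X : ℝ) ^ (δ / 2600) < (2 : ℝ) ^ 2 ^ I := by
    have h1 : ((X : ℝ) ^ (δ / 2600)) ^ (2600 : ℕ) < ((2 : ℝ) ^ 2 ^ I) ^ (2600 : ℕ) := by
      rw [← Real.rpow_natCast, ← Real.rpow_mul hX0.le, ← pow_mul]
      have e1 : δ / 2600 * ((2600 : ℕ) : ℝ) = δ := by push_cast; ring
      rw [e1, mul_comm (2 ^ I) 2600, ← hx]
      exact hI2
    exact lt_of_pow_lt_pow_left₀ 2600 (by positivity) h1
  have hP := pow_big2 I hI0
  obtain ⟨W, hW⟩ : ∃ W : ℝ, W = (2 : ℝ) ^ (139 * I) := ⟨_, rfl⟩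
  have hWpos : 0 < W := by rw [hW]; positivity
  rw [← hW] at hlow
  have hWx : W ≤ x := by
    refine le_trans ?_ hI1
    rw [hW]
    apply pow_le_pow_right₀ (by norm_num)
    omega
  have hfin : (X : ℝ) ^ (1 / 2 - ε) ≤ (K : ℝ) / (4 * W) / 3 := by
    have h1 : (X : ℝ) ^ (1 / 2 - ε) ≤ (X : ℝ) ^ (1 / 2 - 4 * δ) :=
      Real.rpow_le_rpow_of_exponent_le hX1.le (by linarith)
    refine h1.trans ?_
    rw [div_div, le_div_iff₀ (by positivity)]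
    have h2 : (X : ℝ) ^ (1 / 2 - 4 * δ) * (180012 * x) ≤ Y := by
      have e : Y = (X : ℝ) ^ (1 / 2 - 4 * δ) * (X : ℝ) ^ (δ / 2) * x := by
        rw [hY, hx, ← Real.rpow_add hX0, ← Real.rpow_add hX0]
        congr 1
        ring
      rw [e]
      have h3 : (X : ℝ) ^ (1 / 2 - 4 * δ) * 180012 ≤ (X : ℝ) ^ (1 / 2 - 4 * δ) * (X : ℝ) ^ (δ / 2) :=
        mul_le_mul_of_nonneg_left a4 (by positivity)
      nlinarith
    have h5 : (X : ℝ) ^ (1 / 2 - 4 * δ) * (12 * x) ≤ Y / 15001 := by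
      rw [le_div_iff₀ (by norm_num)]
      linarith
    have h6 : (X : ℝ) ^ (1 / 2 - 4 * δ) * (4 * W * 3) ≤ (X : ℝ) ^ (1 / 2 - 4 * δ) * (12 * x) :=
      mul_le_mul_of_nonneg_left (by linarith) (by positivity)
    linarith
  refine hfin.trans ?_
  rw [div_le_iff₀ (by norm_num)]
  refine (hlow.trans hcount).trans ?_
  rw [mul_comm]
  apply mul_le_mul_of_nonneg_right _ (by norm_num)
  have hsub : ({n : ℕ | 1 ≤ n ∧ n ≤ X ∧ Rough (2 ^ 2 ^ I) n ∧ Rough (2 ^ 2 ^ I) (4 * n + c) ∧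
        Even (g n + g (4 * n + c))} : Set ℕ) ⊆ {n : ℕ | 1 ≤ n ∧ n ≤ X ∧
          (∀ p : ℕ, p.Prime → p ∣ n * (4 * n + c) → (X : ℝ) ^ (δ / 2600) < p) ∧
          Even (g (n * (4 * n + c)))} := by
    rintro n ⟨h1, h2, h3, h4, h5⟩
    refine ⟨h1, h2, fun p hp hd => hz.trans ?_, ?_⟩
    · exact_mod_cast (h3.mul h4) p hp hd
    · rw [hg _ _ (by omega) (by omega)]
      exact h5
  exact_mod_cast Set.ncard_le_ncard hsub ((Set.finite_Iic X).subset fun _ hn => hn.2.1)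

/-- For `A ^ 2 x - B ^ 2 y = c` with `A B c` prime to `3`, or with `A`, `B` odd, `c` even and not
divisible by `8`, a real character fixes the parity to be odd. -/
theorem obstruction_sq (A B c : ℤ)
    (h : ¬ 3 ∣ A * B * c ∨ (¬ 2 ∣ A * B ∧ 2 ∣ c ∧ ¬ 8 ∣ c)) : ∃ S : Set ℕ, ∀ x y : ℕ,
    1 ≤ x → 1 ≤ y → Nat.Coprime (x * y) 6 → A ^ 2 * x - B ^ 2 * y = c → Odd (cnt S (x * y)) := by
  classical
  have key : ∀ m : ℕ, m ≠ 0 → Nat.Coprime m 6 → (∀ p ∈ m.primeFactorsList, p % 3 ≠ 0) ∧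
      (∀ p ∈ m.primeFactorsList, p % 2 ≠ 0) ∧ m.primeFactorsList.prod = m := by
    intro m hm hc
    refine ⟨fun p hp h3 => ?_, fun p hp h2 => ?_, Nat.prod_primeFactorsList hm⟩
    · have h1 := Nat.dvd_of_mem_primeFactorsList hp
      have h4 : 3 ∣ Nat.gcd m 6 := Nat.dvd_gcd ((Nat.dvd_of_mod_eq_zero h3).trans h1) (by norm_num)
      rw [hc] at h4
      omega
    · have h1 := Nat.dvd_of_mem_primeFactorsList hp
      have h4 : 2 ∣ Nat.gcd m 6 := Nat.dvd_gcd ((Nat.dvd_of_mod_eq_zero h2).trans h1) (by norm_num)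
      rw [hc] at h4
      omega
  have aux : ∀ m q : ℕ, q ∣ 6 → 1 < q → Nat.Coprime m 6 → m % q ≠ 0 := by
    intro m q hq hq1 hc h0
    have h4 : q ∣ Nat.gcd m 6 := Nat.dvd_gcd (Nat.dvd_of_mod_eq_zero h0) hq
    rw [hc] at h4
    have := Nat.le_of_dvd (by norm_num) h4
    omega
  have hcop : ∀ x y : ℕ, Nat.Coprime (x * y) 6 → x % 2 = 1 ∧ y % 2 = 1 ∧ x % 3 ≠ 0 ∧
      y % 3 ≠ 0 := by
    intro x y hc
    have c1 : Nat.Coprime x 6 := Nat.Coprime.coprime_mul_right hc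
    have c2 : Nat.Coprime y 6 := Nat.Coprime.coprime_mul_left hc
    have h1 := aux x 2 (by norm_num) (by norm_num) c1
    have h2 := aux y 2 (by norm_num) (by norm_num) c2
    exact ⟨by omega, by omega, aux x 3 (by norm_num) (by norm_num) c1,
      aux y 3 (by norm_num) (by norm_num) c2⟩
  rcases h with h | ⟨hAB, hc2, hc8⟩
  · -- modulo `3`
    refine ⟨{p | p % 3 = 2}, fun x y hx hy hc he => ?_⟩
    obtain ⟨k3, k2, kp⟩ := key _ (mul_ne_zero (by omega) (by omega)) hc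
    obtain ⟨-, -, x3, y3⟩ := hcop x y hc
    have hl := list3 _ k3
    rw [kp] at hl
    have hA : ¬ (3 : ℤ) ∣ A := fun hd => h ((hd.mul_right _).mul_right _)
    have hB : ¬ (3 : ℤ) ∣ B := fun hd => h ((hd.mul_left _).mul_right _)
    have hcc : ¬ (3 : ℤ) ∣ c := fun hd => h (hd.mul_left _)
    have sq3 : ∀ z : ℤ, ¬ (3 : ℤ) ∣ z → z ^ 2 % 3 = 1 := by
      intro z hz
      have : z % 3 = 1 ∨ z % 3 = 2 := by omega
      rw [pow_two, Int.mul_emod]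
      rcases this with e | e <;> rw [e] <;> rfl
    have hA2 := sq3 A hA
    have hB2 := sq3 B hB
    have hxy : ((x : ℤ) - y) % 3 ≠ 0 := by
      intro h0
      apply hcc
      apply Int.dvd_of_emod_eq_zero
      rw [← he, Int.sub_emod, Int.mul_emod, Int.mul_emod (B ^ 2), hA2, hB2, one_mul, one_mul,
        Int.emod_emod_of_dvd _ (dvd_refl 3), Int.emod_emod_of_dvd _ (dvd_refl 3), ← Int.sub_emod]
      exact h0
    have hm : (x * y) % 3 = 2 := by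
      rw [Nat.mul_mod]
      have : (x % 3 = 1 ∧ y % 3 = 2) ∨ (x % 3 = 2 ∧ y % 3 = 1) := by omega
      rcases this with ⟨e1, e2⟩ | ⟨e1, e2⟩ <;> rw [e1, e2]
    have e : cnt {p | p % 3 = 2} (x * y) =
        (x * y).primeFactorsList.countP (fun p => decide (p % 3 = 2)) := by
      unfold cnt
      congr 1
      funext p
      exact decide_eq_decide.2 Iff.rfl
    rw [e]
    rcases hl with ⟨-, h1⟩ | ⟨h1, -⟩
    · omega
    · exact h1
  · have hA : ¬ (2 : ℤ) ∣ A := fun hd => hAB (hd.mul_right _)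
    have hB : ¬ (2 : ℤ) ∣ B := fun hd => hAB (hd.mul_left _)
    have sq8 : ∀ z : ℤ, ¬ (2 : ℤ) ∣ z → z ^ 2 % 8 = 1 := by
      intro z hz
      have : z % 8 = 1 ∨ z % 8 = 3 ∨ z % 8 = 5 ∨ z % 8 = 7 := by omega
      rw [pow_two, Int.mul_emod]
      rcases this with e | e | e | e <;> rw [e] <;> rfl
    have hA2 := sq8 A hA
    have hB2 := sq8 B hB
    have hxy : ∀ x y : ℕ, A ^ 2 * x - B ^ 2 * y = c → ((x : ℤ) - y) % 8 = c % 8 := by
      intro x y he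
      rw [← he, Int.sub_emod (A ^ 2 * x), Int.mul_emod, Int.mul_emod (B ^ 2), hA2, hB2, one_mul,
        one_mul, Int.emod_emod_of_dvd _ (dvd_refl 8), Int.emod_emod_of_dvd _ (dvd_refl 8),
        ← Int.sub_emod]
    by_cases h4 : c % 4 = 0
    · have h8 : c % 8 = 4 := by omega
      refine ⟨{p | p % 8 = 3 ∨ p % 8 = 5}, fun x y hx hy hc he => ?_⟩
      obtain ⟨k3, k2, kp⟩ := key _ (mul_ne_zero (by omega) (by omega)) hc
      obtain ⟨x2, y2, -, -⟩ := hcop x y hc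
      have hl := list8 _ k2
      rw [kp] at hl
      have hd := hxy x y he
      rw [h8] at hd
      have hm : (x * y) % 8 = 5 := by
        rw [Nat.mul_mod]
        have : (x % 8 = 1 ∧ y % 8 = 5) ∨ (x % 8 = 3 ∧ y % 8 = 7) ∨ (x % 8 = 5 ∧ y % 8 = 1) ∨
            (x % 8 = 7 ∧ y % 8 = 3) := by omega
        rcases this with ⟨e1, e2⟩ | ⟨e1, e2⟩ | ⟨e1, e2⟩ | ⟨e1, e2⟩ <;> rw [e1, e2]
      have e : cnt {p | p % 8 = 3 ∨ p % 8 = 5} (x * y) =
          (x * y).primeFactorsList.countP (fun p => decide (p % 8 = 3 ∨ p % 8 = 5)) := by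
        unfold cnt
        congr 1
        funext p
        exact decide_eq_decide.2 Iff.rfl
      rw [e]
      rcases hl with ⟨-, h1 | h1⟩ | ⟨h1, -⟩
      · omega
      · omega
      · exact h1
    · refine ⟨{p | p % 4 = 3}, fun x y hx hy hc he => ?_⟩
      obtain ⟨k3, k2, kp⟩ := key _ (mul_ne_zero (by omega) (by omega)) hc
      obtain ⟨x2, y2, -, -⟩ := hcop x y hc
      have hl := list4 _ k2
      rw [kp] at hl
      have hd := hxy x y he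
      have hm : (x * y) % 4 = 3 := by
        rw [Nat.mul_mod]
        have : (x % 4 = 1 ∧ y % 4 = 3) ∨ (x % 4 = 3 ∧ y % 4 = 1) := by omega
        rcases this with ⟨e1, e2⟩ | ⟨e1, e2⟩ <;> rw [e1, e2]
      have e : cnt {p | p % 4 = 3} (x * y) =
          (x * y).primeFactorsList.countP (fun p => decide (p % 4 = 3)) := by
        unfold cnt
        congr 1
        funext p
        exact decide_eq_decide.2 Iff.rfl
      rw [e]
      rcases hl with ⟨-, h1⟩ | ⟨h1, -⟩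
      · omega
      · exact h1

end Pool.Agent.H505R4
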