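import Pool.Agent.H505R3.Asym8

/-!
Lower bound sieve for five integer linear forms `α i * t + β i`.
-/

set_option autoImplicit false

namespace Pool.Agent.H505R4

open Finset Pool.Agent.H505R2 Pool.Agent.H505R3

lemma lin_le_one {p : ℕ} (hp : p.Prime) (α β : ℤ) (h : ¬ ((p : ℤ) ∣ α ∧ (p : ℤ) ∣ β)) :
    ((range p).filter (fun r : ℕ => (p : ℤ) ∣ α * r + β)).card ≤ 1 := by
  rw [card_le_one]
  intro a ha b hb
  rw [mem_filter, mem_range] at ha hb
  have h1 : (p : ℤ) ∣ α * ((a : ℤ) - b) := by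
    have h0 : α * ((a : ℤ) - b) = (α * a + β) - (α * b + β) := by ring
    rw [h0]
    exact dvd_sub ha.2 hb.2
  rcases (Nat.prime_iff_prime_int.1 hp).dvd_or_dvd h1 with h2 | h2
  · exact absurd ⟨h2, (Int.dvd_add_right (h2.mul_right _)).1 ha.2⟩ h
  · have h3 : (a : ℤ) - b = 0 := by
      apply Int.eq_zero_of_abs_lt_dvd h2
      rw [abs_lt]
      constructor <;> omega
    omega

lemma lin_zero {p : ℕ} (α β : ℤ) (hα : (p : ℤ) ∣ α) (h : ¬ ((p : ℤ) ∣ α ∧ (p : ℤ) ∣ β)) :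
    ((range p).filter (fun r : ℕ => (p : ℤ) ∣ α * r + β)).card = 0 := by
  rw [card_eq_zero, filter_eq_empty_iff]
  intro a _ h1
  exact h ⟨hα, (Int.dvd_add_right (hα.mul_right _)).1 h1⟩

/-- `p` divides one of the five forms -/
def D5 (α β : Fin 5 → ℤ) (p n : ℕ) : Prop := ∃ i, (p : ℤ) ∣ α i * n + β i

instance (α β : Fin 5 → ℤ) (p : ℕ) : DecidablePred (D5 α β p) := fun n => by
  unfold D5; infer_instance

lemma D5_mod {α β : Fin 5 → ℤ} {p n : ℕ} (h : D5 α β p n) : D5 α β p (n % p) := by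
  obtain ⟨i, hi⟩ := h
  refine ⟨i, ?_⟩
  have h1 : (p : ℤ) ∣ (n : ℤ) - ((n % p : ℕ) : ℤ) := by
    refine ⟨((n / p : ℕ) : ℤ), ?_⟩
    have := Nat.div_add_mod n p
    have h2 : ((p * (n / p) + n % p : ℕ) : ℤ) = n := by exact_mod_cast this
    push_cast at h2 ⊢
    linarith
  have h2 : α i * ((n % p : ℕ) : ℤ) + β i = (α i * n + β i) - α i * ((n : ℤ) - ((n % p : ℕ) : ℤ)) := by
    ring
  rw [h2]
  exact dvd_sub hi (h1.mul_left _)

lemma D5_sub (α β : Fin 5 → ℤ) (p : ℕ) : (range p).filter (D5 α β p) ⊆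
    (univ : Finset (Fin 5)).biUnion
      (fun i => (range p).filter (fun r : ℕ => (p : ℤ) ∣ α i * r + β i)) := by
  intro r hr
  rw [mem_filter] at hr
  obtain ⟨h1, i, hi⟩ := hr
  rw [mem_biUnion]
  exact ⟨i, mem_univ _, mem_filter.2 ⟨h1, hi⟩⟩

lemma D5_card {α β : Fin 5 → ℤ} {p : ℕ} (hp : p.Prime)
    (h : ∀ i, ¬ ((p : ℤ) ∣ α i ∧ (p : ℤ) ∣ β i)) :
    ((range p).filter (D5 α β p)).card ≤ 5 := by
  refine (card_le_card (D5_sub α β p)).trans (card_biUnion_le.trans ?_)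
  refine (sum_le_card_nsmul _ _ 1 (fun i _ => lin_le_one hp _ _ (h i))).trans ?_
  simp

lemma D5_card5 {α β : Fin 5 → ℤ} {p : ℕ} (hp : p.Prime)
    (h : ∀ i, ¬ ((p : ℤ) ∣ α i ∧ (p : ℤ) ∣ β i)) (h5 : (p : ℤ) ∣ α 3) :
    ((range p).filter (D5 α β p)).card ≤ 4 := by
  refine (card_le_card (D5_sub α β p)).trans (card_biUnion_le.trans ?_)
  rw [Fin.sum_univ_five, lin_zero (α 3) (β 3) h5 (h 3)]
  have h0 := lin_le_one hp _ _ (h 0)
  have h1 := lin_le_one hp _ _ (h 1)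
  have h2 := lin_le_one hp _ _ (h 2)
  have h4 := lin_le_one hp _ _ (h 4)
  omega

/-- primes between `5` and the sifting limit -/
def SP (I : ℕ) : Finset ℕ := (Icc 5 (2 ^ 2 ^ I)).filter Nat.Prime

lemma mem_SP {I p : ℕ} : p ∈ SP I ↔ 5 ≤ p ∧ p ≤ 2 ^ 2 ^ I ∧ p.Prime := by
  rw [SP, mem_filter, mem_Icc, and_assoc]

/-- the sieve for five linear forms, one of which is constant modulo `5` -/
theorem sift5 (α β : Fin 5 → ℤ)
    (h : ∀ p : ℕ, p.Prime → 5 ≤ p → ∀ i, ¬ ((p : ℤ) ∣ α i ∧ (p : ℤ) ∣ β i))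
    (h5 : (5 : ℤ) ∣ α 3) (I : ℕ) (hI : 1 ≤ I) (k : ℕ) :
    (k : ℝ) * (Real.exp (-96) ^ I / 2) - (2 : ℝ) ^ (1292 * 2 ^ I)
      ≤ (((Ioc 0 k).filter (fun n => ∀ p ∈ SP I, ¬ D5 α β p n)).card : ℝ) := by
  have h := sift_gen 3 (by norm_num) (SP I) (fun p hp => (mem_SP.1 hp).2.2) (D5 α β)
    (fun p _ n h => D5_mod h) (by
      intro p hp
      obtain ⟨h5', -, hpp⟩ := mem_SP.1 hp
      by_cases hp5 : p = 5
      · subst hp5
        have := D5_card5 hpp (h 5 hpp (by norm_num)) h5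
        omega
      · have h7 : 7 ≤ p := by
          by_contra hcon
          have h6 : p = 6 := by omega
          subst h6
          revert hpp
          norm_num
        have := D5_card hpp (h p hpp h5')
        omega) (by
      intro p hp
      obtain ⟨h5', -, hpp⟩ := mem_SP.1 hp
      exact (D5_card hpp (h p hpp h5')).trans (by norm_num)) I hI
    (fun p hp => (mem_SP.1 hp).2.1) k
  have e : (-(32 * ((3 : ℕ) : ℝ))) = -96 := by norm_num
  rw [e] at h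
  exact h

lemma rough_of {I n : ℕ} (h2 : n % 2 = 1) (h3 : n % 3 ≠ 0)
    (hs : ∀ p ∈ SP I, ¬ (p : ℤ) ∣ (n : ℤ)) : Rough (2 ^ 2 ^ I) n := by
  intro p hp hd
  by_contra hcon
  push Not at hcon
  have a2 : p ≠ 2 := by
    rintro rfl
    omega
  have a3 : p ≠ 3 := by
    rintro rfl
    omega
  have h5 : 5 ≤ p := by
    have := hp.two_le
    by_contra h5
    have h4 : p = 4 := by omega
    subst h4
    revert hp
    norm_num
  exact hs p (mem_SP.2 ⟨h5, hcon, hp⟩) (by exact_mod_cast hd)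

end Pool.Agent.H505R4
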